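import Pool.Agent.T9h35.Extract

set_option autoImplicit false

namespace Pool.Agent.T9h35

open Pool.Agent.T9h16
open scoped Classical

/-- A wire of a monotone circuit whose input is a graph on `n` vertices: an edge variable, a
constant, or the output of the gate with number `k`. -/
inductive Wire (n : ℕ) : Type
  | edge (i j : Fin n) : Wire n
  | const (b : Bool) : Wire n
  | gate (k : ℕ) : Wire n

/-- An AND gate (`isAnd = true`) or an OR gate (`isAnd = false`) with two input wires. -/
structure Gate (n : ℕ) : Type where
  isAnd : Bool
  left : Wire n
  right : Wire n

/-- A monotone circuit whose input is a graph on `n` vertices: a list of AND and OR gates, in the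
order in which they are evaluated, and an output wire. -/
structure MonoCircuit (n : ℕ) : Type where
  gates : List (Gate n)
  output : Wire n

/-- The value of a wire on the graph `G`, given the list `vs` of the values of the gates evaluated
so far (a gate that has not been evaluated yet counts as false). -/
def Wire.value {n : ℕ} (G : SimpleGraph (Fin n)) (vs : List Prop) : Wire n → Prop
  | .edge i j => G.Adj i j
  | .const b => b = true
  | .gate k => vs.getD k False

/-- The value of a gate on the graph `G`, given the list `vs` of the values of the earlier gates. -/
def Gate.value {n : ℕ} (G : SimpleGraph (Fin n)) (vs : List Prop) (g : Gate n) : Prop :=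
  if g.isAnd then g.left.value G vs ∧ g.right.value G vs
  else g.left.value G vs ∨ g.right.value G vs

/-- Evaluate the gates of a list one after the other, appending their values to `vs`. -/
def run {n : ℕ} (G : SimpleGraph (Fin n)) : List (Gate n) → List Prop → List Prop
  | [], vs => vs
  | g :: gs, vs => run G gs (vs ++ [g.value G vs])

/-- The number of gates of a circuit. -/
def MonoCircuit.size {n : ℕ} (C : MonoCircuit n) : ℕ := C.gates.length

/-- The circuit outputs 1 on the graph `G`. -/
def MonoCircuit.Accepts {n : ℕ} (C : MonoCircuit n) (G : SimpleGraph (Fin n)) : Prop :=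
  C.output.value G (run G C.gates [])

theorem run_length {n : ℕ} (G : SimpleGraph (Fin n)) (gs : List (Gate n)) (vs : List Prop) :
    (run G gs vs).length = vs.length + gs.length := by
  induction gs generalizing vs with
  | nil => simp [run]
  | cons g gs ih =>
    rw [run, ih]
    simp
    omega

theorem run_take {n : ℕ} (G : SimpleGraph (Fin n)) (gs : List (Gate n)) (vs : List Prop) :
    (run G gs vs).take vs.length = vs := by
  induction gs generalizing vs with
  | nil => simp [run]
  | cons g gs ih =>
    have h := congrArg (List.take vs.length) (ih (vs ++ [g.value G vs]))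
    rw [List.take_take, List.length_append] at h
    rw [run]
    rw [min_eq_left (Nat.le_add_right _ _)] at h
    rw [h]
    simp

theorem run_get {n : ℕ} (G : SimpleGraph (Fin n)) (gs : List (Gate n)) (vs : List Prop) (i : ℕ)
    (hi : i < gs.length) :
    (run G gs vs).getD (vs.length + i) False =
      (gs[i]).value G ((run G gs vs).take (vs.length + i)) := by
  induction gs generalizing vs i with
  | nil => simp at hi
  | cons g gs ih =>
    rcases i with _ | i
    · rw [run]
      have h := run_take G gs (vs ++ [g.value G vs])
      rw [List.length_append, List.length_singleton] at h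
      have h1 : (run G gs (vs ++ [g.value G vs])).getD (vs.length + 0) False = g.value G vs := by
        have h2 : ((run G gs (vs ++ [g.value G vs])).take (vs.length + 1)).getD vs.length False =
            (run G gs (vs ++ [g.value G vs])).getD vs.length False := by
          simp [List.getD_eq_getElem?_getD, List.getElem?_take]
        rw [Nat.add_zero, ← h2, h]
        simp [List.getD_eq_getElem?_getD]
      have h3 : (run G gs (vs ++ [g.value G vs])).take (vs.length + 0) = vs := by
        have := congrArg (List.take vs.length) h
        rw [List.take_take, min_eq_left (Nat.le_succ _)] at this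
        rw [Nat.add_zero, this]
        simp
      rw [h1, h3]
      rfl
    · have h := ih (vs ++ [g.value G vs]) i (by simpa using hi)
      rw [List.length_append, List.length_singleton] at h
      have e : vs.length + 1 + i = vs.length + (i + 1) := by omega
      rw [e] at h
      rw [run, h]
      rfl

theorem wire_mono {n : ℕ} {G G' : SimpleGraph (Fin n)} (hG : G ≤ G') {vs vs' : List Prop}
    (hvs : ∀ k, vs.getD k False → vs'.getD k False) (w : Wire n) (h : w.value G vs) :
    w.value G' vs' := by
  cases w with
  | edge i j => exact hG h
  | const b => exact h
  | gate k => exact hvs k h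

theorem gate_mono {n : ℕ} {G G' : SimpleGraph (Fin n)} (hG : G ≤ G') {vs vs' : List Prop}
    (hvs : ∀ k, vs.getD k False → vs'.getD k False) (g : Gate n) (h : g.value G vs) :
    g.value G' vs' := by
  unfold Gate.value at h ⊢
  split_ifs at h ⊢ with hb
  · exact ⟨wire_mono hG hvs _ h.1, wire_mono hG hvs _ h.2⟩
  · rcases h with h | h
    · exact Or.inl (wire_mono hG hvs _ h)
    · exact Or.inr (wire_mono hG hvs _ h)

theorem run_mono {n : ℕ} {G G' : SimpleGraph (Fin n)} (hG : G ≤ G') (gs : List (Gate n))
    {vs vs' : List Prop} (hl : vs.length = vs'.length)
    (hvs : ∀ k, vs.getD k False → vs'.getD k False) :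
    ∀ k, (run G gs vs).getD k False → (run G' gs vs').getD k False := by
  induction gs generalizing vs vs' with
  | nil => exact hvs
  | cons g gs ih =>
    rw [run, run]
    apply ih
    · simp [hl]
    · intro k hk
      rcases lt_trichotomy k vs.length with hlt | heq | hgt
      · rw [List.getD_append _ _ _ _ hlt] at hk
        rw [List.getD_append _ _ _ _ (hl ▸ hlt)]
        exact hvs k hk
      · subst heq
        rw [List.getD_append_right _ _ _ _ le_rfl] at hk
        rw [hl, List.getD_append_right _ _ _ _ le_rfl]
        simp only [Nat.sub_self, List.getD_cons_zero] at hk ⊢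
        exact gate_mono hG hvs g hk
      · exfalso
        rw [List.getD_eq_default _ _ (by simp; omega)] at hk
        exact hk

/-- A monotone circuit computes a monotone property of graphs. -/
theorem MonoCircuit.mono {n : ℕ} (C : MonoCircuit n) {G G' : SimpleGraph (Fin n)} (hG : G ≤ G')
    (h : C.Accepts G) : C.Accepts G' :=
  wire_mono hG (run_mono hG C.gates rfl fun _ h => h) _ h

/-- Restricting a monotone circuit along a family of graphs all of whose adjacencies are variables
or constants gives a monotone straight-line program. -/
theorem MonoCircuit.slp {n : ℕ} {E : Type} (C : MonoCircuit n) (Γ : Set E → SimpleGraph (Fin n))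
    (hΓ : ∀ i j, Leaf fun z => (Γ z).Adj i j) :
    SLPFor {fun z => C.Accepts (Γ z)} C.size := by
  have hw : ∀ i ≤ C.gates.length, ∀ w : Wire n,
      Avail (fun k z => (run (Γ z) C.gates []).getD k False) i
        (fun z => w.value (Γ z) ((run (Γ z) C.gates []).take i)) := by
    intro i _ w
    cases w with
    | edge a b => exact Or.inl (hΓ a b)
    | const b => exact Or.inl (Or.inr ⟨b = true, fun _ => Iff.rfl⟩)
    | gate k =>
      by_cases hk : k < i
      · refine Or.inr ⟨k, hk, fun z => ?_⟩
        simp [Wire.value, List.getD_eq_getElem?_getD, List.getElem?_take, hk]
      · refine Or.inl (Or.inr ⟨False, fun z => ?_⟩)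
        simp [Wire.value, List.getD_eq_getElem?_getD, List.getElem?_take, hk]
  refine ⟨fun k z => (run (Γ z) C.gates []).getD k False, ?_, ?_⟩
  · intro i hi
    have hi' : i < C.gates.length := hi
    have hv : ∀ z, (run (Γ z) C.gates []).getD i False =
        (C.gates[i]).value (Γ z) ((run (Γ z) C.gates []).take i) := by
      intro z
      have := run_get (Γ z) C.gates [] i hi'
      simpa using this
    refine Or.inr ⟨_, _, hw i hi'.le (C.gates[i]).left, hw i hi'.le (C.gates[i]).right, ?_⟩
    by_cases hb : (C.gates[i]).isAnd
    · left
      intro z
      show (run (Γ z) C.gates []).getD i False ↔ _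
      rw [hv z, Gate.value, if_pos hb]
    · right
      intro z
      show (run (Γ z) C.gates []).getD i False ↔ _
      rw [hv z, Gate.value, if_neg hb]
  · rintro o rfl
    have h := hw C.gates.length le_rfl C.output
    have e : (fun z => C.output.value (Γ z) ((run (Γ z) C.gates []).take C.gates.length)) =
        fun z => C.Accepts (Γ z) := by
      funext z
      rw [MonoCircuit.Accepts, List.take_of_length_le (by rw [run_length]; simp)]
    rw [e] at h
    exact h

end Pool.Agent.T9h35
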