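import Pool.Agent.T9h16.Grid

set_option autoImplicit false

namespace Pool.Agent.T9h35

open Finset Pool.Agent.T9h16
open scoped Classical

/-- Vertices of the join of `M` blocks: left vertices, right vertices, universal vertices. -/
abbrev JVer (M g w u : ℕ) : Type :=
  ((Fin M × Fin g) × Fin w) ⊕ (((Fin M × Fin g) × Fin w) ⊕ Fin u)

/-- Adjacency in the join of the blocks. -/
def jadj {M g w u : ℕ} (y : Fin M → Set (BE g w)) : JVer M g w u → JVer M g w u → Prop
  | .inl a, .inl b => a.1 ≠ b.1
  | .inl a, .inr (.inl b) => a.1.1 = b.1.1 → ((a.1.2, a.2), (b.1.2, b.2)) ∈ y a.1.1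
  | .inr (.inl b), .inl a => a.1.1 = b.1.1 → ((a.1.2, a.2), (b.1.2, b.2)) ∈ y a.1.1
  | .inr (.inl a), .inr (.inl b) => a.1 ≠ b.1
  | .inr (.inr a), .inr (.inr b) => a ≠ b
  | .inr (.inr _), .inl _ => True
  | .inr (.inr _), .inr (.inl _) => True
  | .inl _, .inr (.inr _) => True
  | .inr (.inl _), .inr (.inr _) => True

/-- The join of the blocks. -/
def JJ {M g w u : ℕ} (y : Fin M → Set (BE g w)) : SimpleGraph (JVer M g w u) where
  Adj := jadj y
  symm := ⟨by
    rintro (a | a | a) (b | b | b) h
    · exact Ne.symm h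
    · exact h
    · trivial
    · exact h
    · exact Ne.symm h
    · trivial
    · trivial
    · trivial
    · exact Ne.symm h⟩
  loopless := ⟨by
    rintro (a | a | a) h
    · exact h rfl
    · exact h rfl
    · exact h rfl⟩

theorem JJ_mono {M g w u : ℕ} {y y' : Fin M → Set (BE g w)} (h : ∀ i, y i ⊆ y' i) :
    (JJ y : SimpleGraph (JVer M g w u)) ≤ JJ y' := by
  intro a b hab
  change jadj y a b at hab
  change jadj y' a b
  rcases a with a | a | a <;> rcases b with b | b | b
  · exact hab
  · exact fun e => h _ (hab e)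
  · exact hab
  · exact fun e => h _ (hab e)
  · exact hab
  · exact hab
  · exact hab
  · exact hab
  · exact hab

/-- Every adjacency is constant or a block variable. -/
theorem JJ_leaf {M g w u : ℕ} (a b : JVer M g w u) :
    (∃ t : Prop, ∀ y : Fin M → Set (BE g w), (JJ y).Adj a b ↔ t) ∨
    (∃ i e, ∀ y : Fin M → Set (BE g w), (JJ y).Adj a b ↔ e ∈ y i) := by
  rcases a with a | a | a <;> rcases b with b | b | b
  · exact Or.inl ⟨_, fun y => Iff.rfl⟩
  · by_cases h : a.1.1 = b.1.1
    · refine Or.inr ⟨a.1.1, ((a.1.2, a.2), (b.1.2, b.2)), fun y => ?_⟩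
      exact ⟨fun h' => h' h, fun h' _ => h'⟩
    · refine Or.inl ⟨True, fun y => ?_⟩
      exact ⟨fun _ => trivial, fun _ h' => absurd h' h⟩
  · exact Or.inl ⟨_, fun y => Iff.rfl⟩
  · by_cases h : b.1.1 = a.1.1
    · refine Or.inr ⟨b.1.1, ((b.1.2, b.2), (a.1.2, a.2)), fun y => ?_⟩
      exact ⟨fun h' => h' h, fun h' _ => h'⟩
    · refine Or.inl ⟨True, fun y => ?_⟩
      exact ⟨fun _ => trivial, fun _ h' => absurd h' h⟩
  · exact Or.inl ⟨_, fun y => Iff.rfl⟩
  · exact Or.inl ⟨_, fun y => Iff.rfl⟩
  · exact Or.inl ⟨_, fun y => Iff.rfl⟩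
  · exact Or.inl ⟨_, fun y => Iff.rfl⟩
  · exact Or.inl ⟨_, fun y => Iff.rfl⟩

/-- A set of points in pairwise different parts. -/
theorem jtransversal {C : Type} [Fintype C] {w : ℕ} (S : Finset (C × Fin w))
    (hS : ∀ a ∈ S, ∀ b ∈ S, a ≠ b → a.1 ≠ b.1) :
    S.card ≤ Fintype.card C ∧ (S.card = Fintype.card C → ∃ φ : C → Fin w, ∀ x, (x, φ x) ∈ S) := by
  have hinj : Set.InjOn (fun a : C × Fin w => a.1) S := by
    intro a ha b hb hab
    by_contra hne
    exact hS a ha b hb hne hab
  refine ⟨?_, fun hcard => ?_⟩
  · have := card_le_card_of_injOn (s := S) (t := (univ : Finset C))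
      (fun a : C × Fin w => a.1) (fun a _ => mem_univ _) hinj
    simpa using this
  · have himg : S.image (fun a : C × Fin w => a.1) = univ := by
      apply eq_univ_of_card
      rw [card_image_of_injOn hinj, hcard]
    have hex : ∀ x : C, ∃ a ∈ S, a.1 = x := by
      intro x
      have : x ∈ S.image (fun a : C × Fin w => a.1) := by rw [himg]; exact mem_univ _
      rw [mem_image] at this
      exact this
    choose f hfS hfx using hex
    refine ⟨fun x => (f x).2, fun x => ?_⟩
    have : (x, (f x).2) = f x := Prod.ext (hfx x).symm rfl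
    rw [this]
    exact hfS x

theorem JJ_clique {M g w u : ℕ} (y : Fin M → Set (BE g w)) :
    (∃ c : Finset (JVer M g w u), (JJ y).IsClique (c : Set (JVer M g w u)) ∧
      u + 2 * (M * g) ≤ c.card) ↔ ∀ i, TC (y i) := by
  have hC : Fintype.card (Fin M × Fin g) = M * g := by
    rw [Fintype.card_prod, Fintype.card_fin, Fintype.card_fin]
  constructor
  · rintro ⟨c, hc, hcard⟩
    have hadj : ∀ a ∈ c, ∀ b ∈ c, a ≠ b → jadj y a b := fun a ha b hb hab => hc ha hb hab
    have hL := jtransversal c.toLeft (by
      intro a ha b hb hab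
      rw [mem_toLeft] at ha hb
      exact hadj _ ha _ hb (fun h => hab (Sum.inl_injective h)))
    have hR := jtransversal c.toRight.toLeft (by
      intro a ha b hb hab
      rw [mem_toLeft, mem_toRight] at ha hb
      exact hadj _ ha _ hb (fun h => hab (Sum.inl_injective (Sum.inr_injective h))))
    rw [hC] at hL hR
    have hU : c.toRight.toRight.card ≤ u := by
      have := card_le_univ c.toRight.toRight
      simpa using this
    have h1 := card_toLeft_add_card_toRight (u := c)
    have h2 := card_toLeft_add_card_toRight (u := c.toRight)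
    have hLc : c.toLeft.card = M * g := by have := hL.1; have := hR.1; omega
    have hRc : c.toRight.toLeft.card = M * g := by have := hL.1; have := hR.1; omega
    obtain ⟨φ, hφ⟩ := hL.2 hLc
    obtain ⟨ψ, hψ⟩ := hR.2 hRc
    intro i
    refine ⟨fun x => φ (i, x), fun x => ψ (i, x), fun x z => ?_⟩
    have hx := hφ (i, x)
    have hz := hψ (i, z)
    rw [mem_toLeft] at hx
    rw [mem_toLeft, mem_toRight] at hz
    exact hadj _ hx _ hz (by simp) rfl
  · intro h
    choose φ ψ h using h
    set cL : Finset ((Fin M × Fin g) × Fin w) :=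
      univ.image fun x : Fin M × Fin g => (x, φ x.1 x.2) with hcL
    set cR : Finset ((Fin M × Fin g) × Fin w) :=
      univ.image fun x : Fin M × Fin g => (x, ψ x.1 x.2) with hcR
    have hL : cL.card = M * g := by
      rw [hcL, card_image_of_injective, card_univ, hC]
      intro x x' hx
      simp only [Prod.mk.injEq] at hx
      exact hx.1
    have hR : cR.card = M * g := by
      rw [hcR, card_image_of_injective, card_univ, hC]
      intro x x' hx
      simp only [Prod.mk.injEq] at hx
      exact hx.1
    refine ⟨cL.disjSum (cR.disjSum univ), ?_, ?_⟩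
    · intro a ha b hb hab
      change jadj y a b
      rcases a with a | a | a <;> rcases b with b | b | b <;>
        simp only [mem_coe, Sum.inl.injEq, Sum.inr.injEq, reduceCtorEq,
          inl_mem_disjSum, inr_mem_disjSum, mem_univ, true_and, ne_eq, hcL, hcR, mem_image,
          not_false_eq_true] at ha hb hab ⊢
      · obtain ⟨x, rfl⟩ := ha
        obtain ⟨x', rfl⟩ := hb
        intro hxx
        apply hab
        simp only at hxx
        rw [hxx]
      · obtain ⟨x, rfl⟩ := ha
        obtain ⟨x', rfl⟩ := hb
        intro hxx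
        simp only at hxx ⊢
        have := h x.1 x.2 x'.2
        rwa [← hxx]
      · trivial
      · obtain ⟨x, rfl⟩ := ha
        obtain ⟨x', rfl⟩ := hb
        intro hxx
        simp only at hxx ⊢
        have := h x'.1 x'.2 x.2
        rwa [← hxx]
      · obtain ⟨x, rfl⟩ := ha
        obtain ⟨x', rfl⟩ := hb
        intro hxx
        apply hab
        simp only at hxx
        rw [hxx]
      · trivial
      · trivial
      · trivial
      · exact hab
    · rw [card_disjSum, card_disjSum, hL, hR, card_univ, Fintype.card_fin]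
      omega

/-- The join embedding: the conjunction of `M` disjoint copies of the block function inside the
problem of finding a clique with at least `k` vertices in a graph on `n` vertices. -/
theorem join_embed (n k M g w : ℕ) (hk : 2 * (M * g) ≤ k) (hM : 1 ≤ M * g)
    (hn : 2 * (M * g * w) + (k - 2 * (M * g)) ≤ n) :
    ∃ G : (Fin M → Set (BE g w)) → SimpleGraph (Fin n),
      (∀ y y', (∀ i, y i ⊆ y' i) → G y ≤ G y') ∧
      (∀ a b : Fin n, (∃ t : Prop, ∀ y, (G y).Adj a b ↔ t) ∨
        (∃ i e, ∀ y, (G y).Adj a b ↔ e ∈ y i)) ∧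
      (∀ y, (∃ c : Finset (Fin n), (G y).IsClique (c : Set (Fin n)) ∧ k ≤ c.card) ↔
        ∀ i, TC (y i)) := by
  obtain ⟨u, hu⟩ : ∃ u, u = k - 2 * (M * g) := ⟨_, rfl⟩
  rw [← hu] at hn
  have hcard : Fintype.card (JVer M g w u) ≤ Fintype.card (Fin n) := by
    simp only [Fintype.card_sum, Fintype.card_prod, Fintype.card_fin]
    omega
  obtain ⟨ι⟩ := Function.Embedding.nonempty_of_card_le hcard
  have hku : k = u + 2 * (M * g) := by omega
  refine ⟨fun y => (JJ y).map ι, ?_, ?_, ?_⟩
  · intro y y' h
    exact SimpleGraph.map_monotone ι (JJ_mono h)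
  · intro a b
    by_cases ha : ∃ u', ι u' = a
    · by_cases hb : ∃ v', ι v' = b
      · obtain ⟨a', rfl⟩ := ha
        obtain ⟨b', rfl⟩ := hb
        simp only [SimpleGraph.map_adj_apply]
        exact JJ_leaf a' b'
      · left
        refine ⟨False, fun y => ?_⟩
        simp only [SimpleGraph.map_adj, iff_false, not_exists, not_and]
        rintro u' v' _ _ h
        exact hb ⟨v', h⟩
    · left
      refine ⟨False, fun y => ?_⟩
      simp only [SimpleGraph.map_adj, iff_false, not_exists, not_and]
      rintro u' v' _ h _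
      exact ha ⟨u', h⟩
  · intro y
    rw [← JJ_clique (u := u) y]
    constructor
    · rintro ⟨c, hc, hck⟩
      have hrange : ∀ a ∈ c, ∃ a', ι a' = a := by
        intro a ha
        obtain ⟨b, hb, hba⟩ : ∃ b ∈ c, b ≠ a := by
          apply exists_mem_ne (by omega)
        have := hc hb ha hba
        rw [SimpleGraph.map_adj] at this
        obtain ⟨u', v', _, _, h⟩ := this
        exact ⟨v', h⟩
      refine ⟨univ.filter fun a => ι a ∈ c, ?_, ?_⟩
      · intro a ha b hb hab
        simp only [coe_filter, mem_univ, true_and, Set.mem_ofPred_eq] at ha hb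
        have := hc ha hb (fun h => hab (ι.injective h))
        rwa [SimpleGraph.map_adj_apply] at this
      · have : c ⊆ (univ.filter fun a => ι a ∈ c).map ι := by
          intro a ha
          obtain ⟨a', rfl⟩ := hrange a ha
          simp only [mem_map, mem_filter, mem_univ, true_and]
          exact ⟨a', ha, rfl⟩
        have := card_le_card this
        rw [card_map] at this
        omega
    · rintro ⟨c, hc, hck⟩
      refine ⟨c.map ι, ?_, ?_⟩
      · rw [coe_map]
        exact hc.map
      · rw [card_map]
        omega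

end Pool.Agent.T9h35
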