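import Pool.Agent.T9h35.Circ
import Pool.Agent.T9h16.Grid

set_option autoImplicit false

namespace Pool.Agent.T9h35

open Pool.Agent.T9h16
open scoped Classical

/-- The main step: below `p ^ 2` bits of monotone advice are useless. -/
theorem core (n k p r R s : ℕ) (hr : 2 ≤ r) (hk : 2 * GG r ≤ k)
    (hn : 2 * (p * (GG r * (2 * r))) + (k - 2 * GG r) ≤ n) (hs : (R + 1) * s ≤ 2 ^ r)
    (H : Fin R → MonoCircuit n) (D : Set (Fin R) → MonoCircuit n)
    (hH : ∀ i, (H i).size ≤ s) (hD : ∀ v, (D v).size ≤ s)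
    (hcl : ∀ G : SimpleGraph (Fin n), (D {i | (H i).Accepts G}).Accepts G ↔
      ∃ c : Finset (Fin n), G.IsClique (c : Set (Fin n)) ∧ k ≤ c.card) :
    p * p ≤ R := by
  by_contra hcon
  rw [not_le] at hcon
  have hg1 : 1 ≤ GG r := (two_le_GG r hr).trans' (by norm_num)
  obtain ⟨G, hGm, hGl, hGc⟩ := grid n k p (GG r) (2 * r) hg1 hk hn
  obtain ⟨i, y, hiy⟩ := extract (ι := Fin p × Fin p) (E := BE (GG r) (2 * r)) (R := R)
    (fun y => Finset.univ.filter fun i => (H i).Accepts (G y))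
    (by
      intro y y' hy a ha
      rw [Finset.mem_filter] at ha ⊢
      exact ⟨ha.1, (H a).mono (hGm y y' hy) ha.2⟩)
    TC (not_TC_empty hg1) (fun v y => (D (v : Set (Fin R))).Accepts (G y))
    (by
      intro y
      have e : ((Finset.univ.filter fun i => (H i).Accepts (G y) : Finset (Fin R)) :
          Set (Fin R)) = {i | (H i).Accepts (G y)} := by
        ext a; simp
      rw [e, hcl, hGc])
    (by simpa [Fintype.card_prod, Fintype.card_fin] using hcon)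
  set v : Finset (Fin R) := Finset.univ.filter fun i => (H i).Accepts (G y) with hv
  have hleaf : ∀ a b, Leaf fun z => (G (Function.update y i z)).Adj a b := by
    intro a b
    rcases hGl a b with ⟨t, ht⟩ | ⟨i', e, he⟩
    · exact Or.inr ⟨t, fun z => ht _⟩
    · by_cases hii : i' = i
      · refine Or.inl ⟨e, fun z => ?_⟩
        show (G (Function.update y i z)).Adj a b ↔ _
        rw [he, hii, Function.update_self]
      · refine Or.inr ⟨e ∈ y i', fun z => ?_⟩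
        show (G (Function.update y i z)).Adj a b ↔ _
        rw [he, Function.update_of_ne hii]
  have h1 : SLPFor {fun z => (D (v : Set (Fin R))).Accepts (G (Function.update y i z))} s :=
    ((D (v : Set (Fin R))).slp _ hleaf).mono subset_rfl (hD _)
  have h2 : SLPFor (⋃ a : Fin R, {fun z => (H a).Accepts (G (Function.update y i z))}) (R * s) :=
    SLPFor.iUnion fun a => ((H a).slp _ hleaf).mono subset_rfl (hH a)
  set O : Set (Set (BE (GG r) (2 * r)) → Prop) :=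
    {fun z => (D (v : Set (Fin R))).Accepts (G (Function.update y i z))} ∪
      {o | ∃ a ∉ v, o = fun z => (H a).Accepts (G (Function.update y i z))} with hO
  have h3 : SLPFor O ((R + 1) * s) := by
    refine (h1.union h2).mono ?_ (by rw [Nat.add_mul, one_mul, add_comm])
    apply Set.union_subset_union_right
    rintro o ⟨a, -, rfl⟩
    exact Set.mem_iUnion.2 ⟨a, rfl⟩
  obtain ⟨gt, hgt, hav⟩ := h3
  refine hard r hr _ hs gt hgt O hav ?_ ?_
  · intro z hz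
    rcases (hiy z).1 hz with h | ⟨a, ha, h⟩
    · exact ⟨_, Or.inl rfl, h⟩
    · rw [Finset.mem_filter] at h
      exact ⟨_, Or.inr ⟨a, ha, rfl⟩, h.2⟩
  · intro z hz o ho hoz
    apply hz
    rw [hiy z]
    rcases ho with rfl | ⟨a, ha, rfl⟩
    · exact Or.inl hoz
    · refine Or.inr ⟨a, ha, ?_⟩
      rw [Finset.mem_filter]
      exact ⟨Finset.mem_univ _, hoz⟩

theorem LL_le (r : ℕ) (hr : 1 ≤ r) : ∃ q : ℕ, LL r ≤ 2 * q + 5 ∧ 2 ^ q ≤ r := by
  refine ⟨Nat.log 2 r, ?_, Nat.pow_log_le_self 2 (by omega)⟩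
  have h1 : r < 2 ^ (Nat.log 2 r + 1) := Nat.lt_pow_succ_log_self (by norm_num) r
  have h2 : Nat.clog 2 (4 * r ^ 2) ≤ 2 * Nat.log 2 r + 4 := by
    apply Nat.clog_le_of_le_pow
    calc 4 * r ^ 2 ≤ 4 * (2 ^ (Nat.log 2 r + 1)) ^ 2 := by
          apply Nat.mul_le_mul_left
          exact Nat.pow_le_pow_left h1.le 2
      _ = 2 ^ (2 * Nat.log 2 r + 4) := by
          rw [← pow_mul, show (4 : ℕ) = 2 ^ 2 by norm_num, ← pow_add]
          congr 1
          ring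
  rw [LL]
  omega

theorem aux_sq (q : ℕ) : (2 * q + 5) ^ 2 ≤ 25 * 2 ^ q := by
  induction q with
  | zero => norm_num
  | succ q ih =>
    rcases q with _ | _ | q
    · norm_num
    · norm_num
    · have : (2 * (q + 1 + 1 + 1) + 5) ^ 2 ≤ 2 * (2 * (q + 1 + 1) + 5) ^ 2 := by
        have e : 2 * (2 * (q + 1 + 1) + 5) ^ 2 =
          (2 * (q + 1 + 1 + 1) + 5) ^ 2 + (4 * q ^ 2 + 28 * q + 41) := by ring
        rw [e]
        exact Nat.le_add_right _ _
      calc (2 * (q + 1 + 1 + 1) + 5) ^ 2 ≤ 2 * (2 * (q + 1 + 1) + 5) ^ 2 := this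
        _ ≤ 2 * (25 * 2 ^ (q + 1 + 1)) := Nat.mul_le_mul_left _ ih
        _ = 25 * 2 ^ (q + 1 + 1 + 1) := by ring

theorem LL_sq (r : ℕ) (hr : 1 ≤ r) : (LL r) ^ 2 ≤ 25 * r := by
  obtain ⟨q, h1, h2⟩ := LL_le r hr
  calc (LL r) ^ 2 ≤ (2 * q + 5) ^ 2 := Nat.pow_le_pow_left h1 2
    _ ≤ 25 * 2 ^ q := aux_sq q
    _ ≤ 25 * r := Nat.mul_le_mul_left _ h2

theorem LL_lin (r : ℕ) (hr : 1 ≤ r) : LL r ≤ 25 * r := by
  have h := LL_sq r hr
  have h1 : 1 ≤ LL r := one_le_LL r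
  nlinarith

/-- The quantitative theorem. -/
theorem main (n k R s : ℕ) (H : Fin R → MonoCircuit n) (D : Set (Fin R) → MonoCircuit n)
    (hH : ∀ i, (H i).size ≤ s) (hD : ∀ v, (D v).size ≤ s)
    (hcl : ∀ G : SimpleGraph (Fin n), (D {i | (H i).Accepts G}).Accepts G ↔
      ∃ c : Finset (Fin n), G.IsClique (c : Set (Fin n)) ∧ k ≤ c.card)
    (hk : 30000000 * (Nat.log 2 (n + s) + 1) ^ 3 ≤ k) :
    (n - k) ^ 2 ≤ 30000000 * (R + 1) * (Nat.log 2 (n + s) + 1) ^ 7 := by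
  obtain ⟨l, hl⟩ : ∃ l, l = Nat.log 2 (n + s) + 1 := ⟨_, rfl⟩
  rw [← hl] at hk ⊢
  have hl1 : 1 ≤ l := by omega
  by_cases hnk : n ≤ k
  · have : n - k = 0 := by omega
    rw [this]
    simp
  by_cases hRn : n ^ 2 ≤ R + 1
  · calc (n - k) ^ 2 ≤ n ^ 2 := Nat.pow_le_pow_left (Nat.sub_le _ _) 2
      _ ≤ R + 1 := hRn
      _ = 1 * (R + 1) * 1 := by ring
      _ ≤ 30000000 * (R + 1) * l ^ 7 := by
          apply Nat.mul_le_mul
          · exact Nat.mul_le_mul_right _ (by norm_num)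
          · exact Nat.one_le_pow _ _ hl1
  rw [not_le] at hRn hnk
  obtain ⟨r, hr⟩ : ∃ r, r = 3 * l := ⟨_, rfl⟩
  have hr2 : 2 ≤ r := by omega
  have hns : n + s < 2 ^ l := by
    rw [hl]
    exact Nat.lt_pow_succ_log_self (by norm_num) _
  have hsize : (R + 1) * s ≤ 2 ^ r := by
    calc (R + 1) * s ≤ n ^ 2 * s := Nat.mul_le_mul_right _ hRn.le
      _ ≤ (2 ^ l) ^ 2 * 2 ^ l := Nat.mul_le_mul (Nat.pow_le_pow_left (by omega) 2) (by omega)
      _ = 2 ^ r := by rw [hr]; ring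
  have hLL := LL_lin r (by omega)
  have hLL2 := LL_sq r (by omega)
  have hGk : 2 * GG r ≤ k := by
    refine le_trans ?_ hk
    rw [GG]
    calc 2 * (4 * r ^ 2 * LL r) ≤ 2 * (4 * r ^ 2 * (25 * r)) := by
          apply Nat.mul_le_mul_left
          exact Nat.mul_le_mul_left _ hLL
      _ = 5400 * l ^ 3 := by rw [hr]; ring
      _ ≤ 30000000 * l ^ 3 := Nat.mul_le_mul_right _ (by norm_num)
  obtain ⟨W, hW⟩ : ∃ W, W = 2 * (GG r * (2 * r)) := ⟨_, rfl⟩
  have hW1 : 0 < W := by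
    have := two_le_GG r hr2
    rw [hW]
    positivity
  obtain ⟨p, hp⟩ : ∃ p, p = (n - k) / W := ⟨_, rfl⟩
  have hpn : p * W ≤ n - k := by
    rw [hp]
    exact Nat.div_mul_le_self _ _
  have hfit : 2 * (p * (GG r * (2 * r))) + (k - 2 * GG r) ≤ n := by
    have : 2 * (p * (GG r * (2 * r))) = p * W := by rw [hW]; ring
    omega
  have hpR := core n k p r R s hr2 hGk hfit hsize H D hH hD hcl
  have hlt : n - k < W * (p + 1) := by
    rw [hp]
    exact Nat.lt_mul_div_succ _ hW1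
  have h4 : (p + 1) ^ 2 ≤ 2 * (R + 1) := by nlinarith [sq_nonneg ((p : ℤ) - 1)]
  have h5 : W ^ 2 ≤ 64 * 4 * 25 * 2187 * l ^ 7 := by
    calc W ^ 2 = 256 * r ^ 6 * (LL r) ^ 2 := by rw [hW, GG]; ring
      _ ≤ 256 * r ^ 6 * (25 * r) := Nat.mul_le_mul_left _ hLL2
      _ = 64 * 4 * 25 * 2187 * l ^ 7 := by rw [hr]; ring
  calc (n - k) ^ 2 ≤ (W * (p + 1)) ^ 2 := Nat.pow_le_pow_left hlt.le 2
    _ = W ^ 2 * (p + 1) ^ 2 := by ring
    _ ≤ (64 * 4 * 25 * 2187 * l ^ 7) * (2 * (R + 1)) := Nat.mul_le_mul h5 h4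
    _ = 27993600 * (R + 1) * l ^ 7 := by ring
    _ ≤ 30000000 * (R + 1) * l ^ 7 := by
        apply Nat.mul_le_mul_right
        exact Nat.mul_le_mul_right _ (by norm_num)

end Pool.Agent.T9h35
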