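import Pool.Agent.T9h35.Nondet
import Mathlib.Combinatorics.SimpleGraph.Clique

set_option autoImplicit false

namespace Pool.Agent.T9h35

open Finset Pool.Agent.T9h16
open scoped Classical

theorem SLPFor.or {E : Type} {O : Set (Set E → Prop)} {s : ℕ} (h : SLPFor O s)
    {f g : Set E → Prop} (hf : f ∈ O) (hg : g ∈ O) :
    SLPFor {fun z => f z ∨ g z} (s + 1) := by
  obtain ⟨gt, h1, h2⟩ := h
  have key : ∀ i ≤ s, ∀ p, Avail gt i p →
      Avail (fun i => if i < s then gt i else fun z => f z ∨ g z) i p := by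
    intro i hi p hp
    rcases hp with hp | ⟨j, hj, hp⟩
    · exact Or.inl hp
    · refine Or.inr ⟨j, hj, ?_⟩
      simp only [lt_of_lt_of_le hj hi, if_true]
      exact hp
  refine ⟨fun i => if i < s then gt i else fun z => f z ∨ g z, ?_, ?_⟩
  · intro i hi
    by_cases his : i < s
    · simp only [his, if_true]
      rcases h1 i his with hl | ⟨p, q, hp, hq, hpq⟩
      · exact Or.inl hl
      · exact Or.inr ⟨p, q, key i his.le p hp, key i his.le q hq, hpq⟩
    · have his' : i = s := by omega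
      subst his'
      refine Or.inr ⟨f, g, key _ le_rfl f (h2 f hf), key _ le_rfl g (h2 g hg), Or.inr fun z => ?_⟩
      simp
  · rintro o rfl
    refine Or.inr ⟨s, Nat.lt_succ_self _, fun z => ?_⟩
    simp

theorem slp_exists {E κ : Type} {n s : ℕ} (Γ : Set E → SimpleGraph (Fin n))
    (hΓ : ∀ i j, Leaf fun z => (Γ z).Adj i j) (D : κ → MonoCircuit n) (hD : ∀ u, (D u).size ≤ s)
    (T : Finset κ) :
    SLPFor {fun z => ∃ u ∈ T, (D u).Accepts (Γ z)} (T.card * (s + 1)) := by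
  induction T using Finset.induction_on with
  | empty =>
    refine ⟨fun _ _ => True, fun i hi => absurd hi (by simp), ?_⟩
    rintro o rfl
    exact Or.inl (Or.inr ⟨False, fun z => by simp⟩)
  | insert u T hu ih =>
    have h1 := (ih.union (((D u).slp Γ hΓ).mono subset_rfl (hD u))).or
      (f := fun z => ∃ u ∈ T, (D u).Accepts (Γ z)) (g := fun z => (D u).Accepts (Γ z))
      (Or.inl rfl) (Or.inr rfl)
    refine h1.mono ?_ ?_
    · rintro o rfl
      show _ = _
      funext z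
      rw [eq_iff_iff, Finset.exists_mem_insert, or_comm]
    · rw [Finset.card_insert_of_notMem hu, Nat.succ_mul]
      omega

theorem leaf_dual {E : Type} {p : Set E → Prop} (h : Leaf p) : Leaf fun z => ¬ p zᶜ := by
  rcases h with ⟨e, he⟩ | ⟨b, hb⟩
  · refine Or.inl ⟨e, fun z => ?_⟩
    show ¬ p zᶜ ↔ _
    rw [he, Set.mem_compl_iff, not_not]
  · refine Or.inr ⟨¬ b, fun z => ?_⟩
    show ¬ p zᶜ ↔ _
    rw [hb]

theorem SLPFor.dual {E : Type} {o : Set E → Prop} {s : ℕ} (h : SLPFor {o} s) :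
    SLPFor {fun z => ¬ o zᶜ} s := by
  obtain ⟨gt, h1, h2⟩ := h
  have key : ∀ i, ∀ p, Avail gt i p → Avail (fun i z => ¬ gt i zᶜ) i fun z => ¬ p zᶜ := by
    intro i p hp
    rcases hp with hp | ⟨j, hj, hp⟩
    · exact Or.inl (leaf_dual hp)
    · exact Or.inr ⟨j, hj, fun z => not_congr (hp _)⟩
  refine ⟨fun i z => ¬ gt i zᶜ, ?_, ?_⟩
  · intro i hi
    rcases h1 i hi with hl | ⟨p, q, hp, hq, hpq | hpq⟩
    · exact Or.inl (leaf_dual hl)
    · refine Or.inr ⟨_, _, key i p hp, key i q hq, Or.inr fun z => ?_⟩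
      show ¬ gt i zᶜ ↔ _
      rw [hpq, not_and_or]
    · refine Or.inr ⟨_, _, key i p hp, key i q hq, Or.inl fun z => ?_⟩
      show ¬ gt i zᶜ ↔ _
      rw [hpq, not_or]
  · rintro o' rfl
    exact key s o (h2 o rfl)

/-- The main step for disjunctions of monotone circuits that decide whether a graph has no
independent set with `k` vertices. -/
theorem core_co {κ : Type} [Fintype κ] (n k p r s : ℕ) (hr : 2 ≤ r)
    (hk : 2 * GG r ≤ k)
    (hn : 2 * (p * (GG r * (2 * r))) + (k - 2 * GG r) ≤ n)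
    (hs : ((GG r * (2 * r)) ^ 2 + 1) * (s + 1) ≤ 2 ^ r)
    (D : κ → MonoCircuit n) (hD : ∀ u, (D u).size ≤ s)
    (hcl : ∀ G : SimpleGraph (Fin n), (∃ u, (D u).Accepts G) ↔
      ¬ ∃ c : Finset (Fin n), G.IsIndepSet (c : Set (Fin n)) ∧ k ≤ c.card) :
    2 ^ (p * p) ≤ Fintype.card κ := by
  by_contra hcon
  rw [not_le] at hcon
  have hg1 : 1 ≤ GG r := (two_le_GG r hr).trans' (by norm_num)
  obtain ⟨G, hGm, hGl, hGc⟩ := grid n k p (GG r) (2 * r) hg1 hk hn
  obtain ⟨G', hG'⟩ : ∃ G' : (Fin p × Fin p → Set (BE (GG r) (2 * r))) → SimpleGraph (Fin n),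
      ∀ y, G' y = (G fun i => (y i)ᶜ)ᶜ := ⟨_, fun _ => rfl⟩
  have hG'm : ∀ y y', (∀ i, y i ⊆ y' i) → G' y ≤ G' y' := by
    intro y y' h
    rw [hG', hG']
    exact compl_le_compl (hGm _ _ fun i => Set.compl_subset_compl.2 (h i))
  have hG'c : ∀ y, (∃ u, (D u).Accepts (G' y)) ↔ ∀ i, ¬ TC (y i)ᶜ := by
    intro y
    rw [hcl, hG', ← not_exists, ← hGc]
    simp only [SimpleGraph.isIndepSet_compl]
  obtain ⟨y, i, hyP, hyi, hst⟩ := stuck (ι := Fin p × Fin p) (κ := κ)
    (fun y => univ.filter fun u => (D u).Accepts (G' y))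
    (fun z : Set (BE (GG r) (2 * r)) => ¬ TC zᶜ) Set.univ
    (by
      rw [Set.compl_univ]
      exact not_TC_empty hg1)
    (by
      intro y hy
      obtain ⟨u, hu⟩ := (hG'c y).2 hy
      exact ⟨u, Finset.mem_filter.2 ⟨Finset.mem_univ _, hu⟩⟩)
    (by
      refine lt_of_le_of_lt (Finset.card_le_univ _) ?_
      rwa [Fintype.card_prod, Fintype.card_fin])
  obtain ⟨Γ, hΓ⟩ : ∃ Γ : Set (BE (GG r) (2 * r)) → SimpleGraph (Fin n),
      ∀ z, Γ z = G' (Function.update y i z) := ⟨_, fun _ => rfl⟩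
  have hleaf : ∀ a b, Leaf fun z => (Γ z).Adj a b := by
    intro a b
    by_cases hab : a = b
    · subst hab
      exact Or.inr ⟨False, fun z => by simp⟩
    rcases hGl a b with ⟨t, ht⟩ | ⟨i', e, he⟩
    · refine Or.inr ⟨¬ t, fun z => ?_⟩
      show (Γ z).Adj a b ↔ _
      rw [hΓ, hG', SimpleGraph.compl_adj, ht]
      exact and_iff_right hab
    · by_cases hii : i' = i
      · refine Or.inl ⟨e, fun z => ?_⟩
        show (Γ z).Adj a b ↔ _
        rw [hΓ, hG', SimpleGraph.compl_adj, he, hii]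
        simp only [Function.update_self, Set.mem_compl_iff, not_not]
        exact and_iff_right hab
      · refine Or.inr ⟨e ∈ y i', fun z => ?_⟩
        show (Γ z).Adj a b ↔ _
        rw [hΓ, hG', SimpleGraph.compl_adj, he]
        simp only [Function.update_of_ne hii, Set.mem_compl_iff, not_not]
        exact and_iff_right hab
  have hE : Fintype.card (BE (GG r) (2 * r)) = (GG r * (2 * r)) ^ 2 := by
    simp only [Fintype.card_prod, Fintype.card_fin]
    ring
  obtain ⟨T, -, hTc, hT⟩ := halving (fun z u => (D u).Accepts (Γ z))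
    (univ.filter fun u => (D u).Accepts (G' y)) ((GG r * (2 * r)) ^ 2 + 1)
    (univ.filter fun z : Set (BE (GG r) (2 * r)) => ¬ TC zᶜ)
    (lt_of_le_of_lt (Finset.card_le_card (Finset.filter_subset _ _))
      (card_set _ (by rw [hE]; exact Nat.lt_succ_self _)))
    (by
      intro z hz
      have h1 := hst z (Finset.mem_filter.1 hz).2
      refine lt_of_lt_of_le h1 ?_
      apply Nat.mul_le_mul_left
      apply Finset.card_le_card
      intro u hu
      have hu' := (Finset.mem_filter.1 hu).2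
      refine Finset.mem_filter.2 ⟨Finset.mem_filter.2 ⟨Finset.mem_univ _, ?_⟩, ?_⟩
      · refine (D u).mono (hG'm _ _ ?_) hu'
        intro j
        by_cases hji : j = i
        · subst hji
          rw [hyi]
          exact Set.subset_univ _
        · rw [Function.update_of_ne hji]
      · rw [hΓ]
        exact hu')
  have hacc : ∀ z, (∃ u ∈ T, (D u).Accepts (Γ z)) ↔ ¬ TC zᶜ := by
    intro z
    constructor
    · rintro ⟨u, -, hu⟩
      have h1 := (hG'c (Function.update y i z)).1 ⟨u, by rw [← hΓ]; exact hu⟩ i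
      rwa [Function.update_self] at h1
    · intro hz
      exact hT z (Finset.mem_filter.2 ⟨Finset.mem_univ _, hz⟩)
  obtain ⟨gt, hgt, hav⟩ := (slp_exists Γ hleaf D hD T).dual.mono subset_rfl
    (Nat.mul_le_mul_right (s + 1) hTc)
  refine hard r hr _ hs gt hgt _ hav ?_ ?_
  · intro z hz
    refine ⟨_, rfl, ?_⟩
    show ¬ ∃ u ∈ T, (D u).Accepts (Γ zᶜ)
    rw [hacc, compl_compl, not_not]
    exact hz
  · rintro z hz o rfl ho
    have ho' : ¬ ∃ u ∈ T, (D u).Accepts (Γ zᶜ) := ho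
    rw [hacc, compl_compl, not_not] at ho'
    exact hz ho'

/-- The quantitative theorem for the property of having no independent set with `k` vertices. -/
theorem main_co {κ : Type} [Fintype κ] (n k s : ℕ) (D : κ → MonoCircuit n)
    (hD : ∀ u, (D u).size ≤ s)
    (hcl : ∀ G : SimpleGraph (Fin n), (∃ u, (D u).Accepts G) ↔
      ¬ ∃ c : Finset (Fin n), G.IsIndepSet (c : Set (Fin n)) ∧ k ≤ c.card)
    (hk : 60000000 * (Nat.log 2 (n + s) + 1) ^ 3 ≤ k) :
    (n - k) ^ 2 ≤ 60000000000000000 * (Nat.log 2 (Fintype.card κ) + 1) *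
      (Nat.log 2 (n + s) + 1) ^ 7 := by
  obtain ⟨l, hl⟩ : ∃ l, l = Nat.log 2 (n + s) + 1 := ⟨_, rfl⟩
  rw [← hl] at hk ⊢
  have hl1 : 1 ≤ l := by omega
  by_cases hnk : n ≤ k
  · have : n - k = 0 := by omega
    rw [this]
    simp
  rw [not_le] at hnk
  have hns : n + s < 2 ^ l := by
    rw [hl]
    exact Nat.lt_pow_succ_log_self (by norm_num) _
  have hsize := size_bound l (s + 1) hl1 (by omega)
  obtain ⟨r, hr⟩ : ∃ r, r = 64 * l := ⟨_, rfl⟩
  rw [← hr] at hsize
  have hr2 : 2 ≤ r := by omega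
  have hg := two_le_GG r hr2
  have hLL := LL_lin r (by omega)
  have hLL2 := LL_sq r (by omega)
  have hGk : 2 * GG r ≤ k := by
    refine le_trans ?_ hk
    rw [GG]
    calc 2 * (4 * r ^ 2 * LL r) ≤ 2 * (4 * r ^ 2 * (25 * r)) := by
          apply Nat.mul_le_mul_left
          exact Nat.mul_le_mul_left _ hLL
      _ = 52428800 * l ^ 3 := by rw [hr]; ring
      _ ≤ 60000000 * l ^ 3 := Nat.mul_le_mul_right _ (by norm_num)
  obtain ⟨W, hW⟩ : ∃ W, W = 2 * (GG r * (2 * r)) := ⟨_, rfl⟩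
  have hW1 : 0 < W := by
    rw [hW]
    positivity
  obtain ⟨p, hp⟩ : ∃ p, p = (n - k) / W := ⟨_, rfl⟩
  have hpn : p * W ≤ n - k := by
    rw [hp]
    exact Nat.div_mul_le_self _ _
  have hfit : 2 * (p * (GG r * (2 * r))) + (k - 2 * GG r) ≤ n := by
    have : 2 * (p * (GG r * (2 * r))) = p * W := by rw [hW]; ring
    omega
  have hlt : n - k < W * (p + 1) := by
    rw [hp]
    exact Nat.lt_mul_div_succ _ hW1
  have hple : p * p ≤ Nat.log 2 (Fintype.card κ) :=
    Nat.le_log_of_pow_le (by norm_num) (core_co n k p r s hr2 hGk hfit hsize D hD hcl)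
  have h7 : (p + 1) ^ 2 ≤ 2 * (p * p + 1) := by nlinarith [sq_nonneg ((p : ℤ) - 1)]
  have h5 : 2 * W ^ 2 ≤ 60000000000000000 * l ^ 7 := by
    calc 2 * W ^ 2 = 512 * r ^ 6 * (LL r) ^ 2 := by rw [hW, GG]; ring
      _ ≤ 512 * r ^ 6 * (25 * r) := Nat.mul_le_mul_left _ hLL2
      _ = 56294995342131200 * l ^ 7 := by rw [hr]; ring
      _ ≤ 60000000000000000 * l ^ 7 := Nat.mul_le_mul_right _ (by norm_num)
  calc (n - k) ^ 2 ≤ (W * (p + 1)) ^ 2 := Nat.pow_le_pow_left hlt.le 2
    _ = W ^ 2 * (p + 1) ^ 2 := by ring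
    _ ≤ W ^ 2 * (2 * (p * p + 1)) := Nat.mul_le_mul_left _ h7
    _ = (2 * W ^ 2) * (p * p + 1) := by ring
    _ ≤ (60000000000000000 * l ^ 7) * (Nat.log 2 (Fintype.card κ) + 1) :=
        Nat.mul_le_mul h5 (by omega)
    _ = 60000000000000000 * (Nat.log 2 (Fintype.card κ) + 1) * l ^ 7 := by ring

end Pool.Agent.T9h35
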