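import Pool.Agent.T9h16.Hard

set_option autoImplicit false

namespace Pool.Agent.T9h35

open Pool.Agent.T9h16
open scoped Classical

/-- The functions in `O` are available in a common monotone straight-line program with `s`
gates. -/
def SLPFor {E : Type} (O : Set (Set E → Prop)) (s : ℕ) : Prop :=
  ∃ gt : ℕ → Set E → Prop, IsSLP gt s ∧ ∀ o ∈ O, Avail gt s o

theorem SLPFor.empty {E : Type} : SLPFor (∅ : Set (Set E → Prop)) 0 :=
  ⟨fun _ _ => True, fun i hi => absurd hi (Nat.not_lt_zero i), fun _ ho => ho.elim⟩

theorem SLPFor.mono {E : Type} {O O' : Set (Set E → Prop)} {s s' : ℕ} (h : SLPFor O s)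
    (hO : O' ⊆ O) (hs : s ≤ s') : SLPFor O' s' := by
  obtain ⟨gt, h1, h2⟩ := h
  refine ⟨fun i => if i < s then gt i else fun _ => True, ?_, ?_⟩
  · intro i _
    by_cases his : i < s
    · simp only [his, if_true]
      rcases h1 i his with hl | ⟨p, q, hp, hq, hpq⟩
      · exact Or.inl hl
      · have key : ∀ p, Avail gt i p →
            Avail (fun i => if i < s then gt i else fun _ => True) i p := by
          intro p hp
          rcases hp with hp | ⟨j, hj, hp⟩
          · exact Or.inl hp
          · refine Or.inr ⟨j, hj, ?_⟩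
            simp only [hj.trans his, if_true]
            exact hp
        exact Or.inr ⟨p, q, key p hp, key q hq, hpq⟩
    · simp only [his, if_false]
      exact Or.inl (Or.inr ⟨True, fun _ => Iff.rfl⟩)
  · intro o ho
    rcases h2 o (hO ho) with hl | ⟨j, hj, hl⟩
    · exact Or.inl hl
    · refine Or.inr ⟨j, lt_of_lt_of_le hj hs, ?_⟩
      simp only [hj, if_true]
      exact hl

theorem SLPFor.union {E : Type} {O₁ O₂ : Set (Set E → Prop)} {s₁ s₂ : ℕ} (h₁ : SLPFor O₁ s₁)
    (h₂ : SLPFor O₂ s₂) : SLPFor (O₁ ∪ O₂) (s₁ + s₂) := by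
  obtain ⟨g₁, hg₁, ho₁⟩ := h₁
  obtain ⟨g₂, hg₂, ho₂⟩ := h₂
  have key₁ : ∀ i ≤ s₁, ∀ p, Avail g₁ i p →
      Avail (fun i => if i < s₁ then g₁ i else g₂ (i - s₁)) i p := by
    intro i hi p hp
    rcases hp with hp | ⟨j, hj, hp⟩
    · exact Or.inl hp
    · refine Or.inr ⟨j, hj, ?_⟩
      simp only [lt_of_lt_of_le hj hi, if_true]
      exact hp
  have key₂ : ∀ i, ∀ p, Avail g₂ i p →
      Avail (fun i => if i < s₁ then g₁ i else g₂ (i - s₁)) (s₁ + i) p := by
    intro i p hp
    rcases hp with hp | ⟨j, hj, hp⟩
    · exact Or.inl hp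
    · refine Or.inr ⟨s₁ + j, by omega, ?_⟩
      have : ¬ s₁ + j < s₁ := by omega
      simp only [this, if_false, Nat.add_sub_cancel_left]
      exact hp
  refine ⟨fun i => if i < s₁ then g₁ i else g₂ (i - s₁), ?_, ?_⟩
  · intro i hi
    by_cases his : i < s₁
    · simp only [his, if_true]
      rcases hg₁ i his with hl | ⟨p, q, hp, hq, hpq⟩
      · exact Or.inl hl
      · exact Or.inr ⟨p, q, key₁ i his.le p hp, key₁ i his.le q hq, hpq⟩
    · simp only [his, if_false]
      rcases hg₂ (i - s₁) (by omega) with hl | ⟨p, q, hp, hq, hpq⟩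
      · exact Or.inl hl
      · have e : s₁ + (i - s₁) = i := by omega
        have hp' := key₂ _ p hp
        have hq' := key₂ _ q hq
        rw [e] at hp' hq'
        exact Or.inr ⟨p, q, hp', hq', hpq⟩
  · intro o ho
    rcases ho with ho | ho
    · rcases key₁ s₁ le_rfl o (ho₁ o ho) with hl | ⟨j, hj, hl⟩
      · exact Or.inl hl
      · exact Or.inr ⟨j, by omega, hl⟩
    · exact key₂ s₂ o (ho₂ o ho)

theorem SLPFor.iUnion {E : Type} {R : ℕ} {O : Fin R → Set (Set E → Prop)} {s : ℕ}
    (h : ∀ i, SLPFor (O i) s) : SLPFor (⋃ i, O i) (R * s) := by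
  induction R with
  | zero =>
    refine SLPFor.empty.mono ?_ (Nat.zero_le _)
    intro o ho
    obtain ⟨i, -⟩ := Set.mem_iUnion.1 ho
    exact i.elim0
  | succ R ih =>
    have h1 := (ih fun i : Fin R => h i.castSucc).union (h (Fin.last R))
    refine h1.mono ?_ ?_
    · intro o ho
      obtain ⟨i, hi⟩ := Set.mem_iUnion.1 ho
      induction i using Fin.lastCases with
      | last => exact Or.inr hi
      | cast i => exact Or.inl (Set.mem_iUnion.2 ⟨i, hi⟩)
    · rw [Nat.succ_mul]

/-- Extraction: if the disjunction of more than `R` disjoint copies of `T` is decided by a family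
of predicates indexed by the value of a monotone map into the subsets of `Fin R`, then some copy
is decided monotonically, by the predicate belonging to one fixed value together with the upward
changes of the index. -/
theorem extract {ι E : Type} [Fintype ι] [DecidableEq ι] {R : ℕ}
    (h : (ι → Set E) → Finset (Fin R)) (hmono : ∀ y y', (∀ i, y i ⊆ y' i) → h y ⊆ h y')
    (T : Set E → Prop) (hT0 : ¬ T ∅) (A : Finset (Fin R) → (ι → Set E) → Prop)
    (hA : ∀ y, A (h y) y ↔ ∃ i, T (y i)) (hR : R < Fintype.card ι) :
    ∃ (i : ι) (y : ι → Set E), ∀ z,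
      (T z ↔ (A (h y) (Function.update y i z) ∨ ∃ r ∉ h y, r ∈ h (Function.update y i z))) := by
  by_contra hcon
  push Not at hcon
  have key : ∀ m ≤ Fintype.card ι, ∃ (J : Finset ι) (y : ι → Set E), J.card = m ∧
      (∀ j ∉ J, y j = ∅) ∧ (∀ j, ¬ T (y j)) ∧ m ≤ (h y).card := by
    intro m
    induction m with
    | zero =>
      intro _
      exact ⟨∅, fun _ => ∅, rfl, fun _ _ => rfl, fun _ => hT0, Nat.zero_le _⟩
    | succ m ih =>
      intro hm
      obtain ⟨J, y, hJ, hy0, hyT, hle⟩ := ih (by omega)
      obtain ⟨i, hi⟩ : ∃ i, i ∉ J := by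
        by_contra hall
        push Not at hall
        have : J = Finset.univ := Finset.eq_univ_iff_forall.2 hall
        rw [this, Finset.card_univ] at hJ
        omega
      obtain ⟨z, hz⟩ := hcon i y
      have hsub : h y ⊆ h (Function.update y i z) := by
        apply hmono
        intro j
        by_cases hji : j = i
        · subst hji
          rw [hy0 j hi]
          exact Set.empty_subset _
        · rw [Function.update_of_ne hji]
      have hupd : ∀ j, j ≠ i → Function.update y i z j = y j := fun j hj =>
        Function.update_of_ne hj _ _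
      rcases hz with ⟨hTz, hnA, hnr⟩ | ⟨hTz, hor⟩
      · exfalso
        have heq : h (Function.update y i z) = h y := by
          apply Finset.Subset.antisymm _ hsub
          intro r hr
          by_contra hrn
          exact hnr r hrn hr
        apply hnA
        rw [← heq]
        exact (hA _).2 ⟨i, by rw [Function.update_self]; exact hTz⟩
      · have hTn : ∀ j, ¬ T (Function.update y i z j) := by
          intro j
          by_cases hji : j = i
          · subst hji
            rw [Function.update_self]
            exact hTz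
          · rw [hupd j hji]
            exact hyT j
        have hne : h y ≠ h (Function.update y i z) := by
          intro heq
          rcases hor with hA' | ⟨r, hr1, hr2⟩
          · rw [heq] at hA'
            obtain ⟨j, hj⟩ := (hA _).1 hA'
            exact hTn j hj
          · rw [heq] at hr1
            exact hr1 hr2
        have hlt : (h y).card < (h (Function.update y i z)).card :=
          Finset.card_lt_card (Finset.ssubset_iff_subset_ne.2 ⟨hsub, hne⟩)
        refine ⟨insert i J, Function.update y i z, ?_, ?_, hTn, by omega⟩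
        · rw [Finset.card_insert_of_notMem hi, hJ]
        · intro j hj
          rw [Finset.mem_insert, not_or] at hj
          rw [hupd j hj.1]
          exact hy0 j hj.2
  obtain ⟨J, y, -, -, -, hle⟩ := key _ le_rfl
  have h1 : (h y).card ≤ R := by
    have := Finset.card_le_univ (h y)
    rwa [Fintype.card_fin] at this
  omega

end Pool.Agent.T9h35
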