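import Pool.Agent.T9h16.Grid

set_option autoImplicit false

namespace Pool.Agent.T9h35

open Finset Pool.Agent.T9h16
open scoped Classical

/-- Two block variables that may be chosen together in different cells. -/
def cons {g w : ℕ} (e e' : BE g w) : Prop :=
  (e.1.1 ≠ e'.1.1 ∨ e.2.1 ≠ e'.2.1) ∧ (e.1.1 = e'.1.1 → e.1.2 = e'.1.2) ∧
    (e.2.1 = e'.2.1 → e.2.2 = e'.2.2)

/-- Two variables in `M` blocks that may be chosen together. -/
def far {M g w : ℕ} (a b : Fin M × BE g w) : Prop := a.1 = b.1 → cons a.2 b.2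

theorem far_irrefl {M g w : ℕ} (a : Fin M × BE g w) : ¬ far a a := by
  intro h
  rcases (h rfl).1 with h | h
  · exact h rfl
  · exact h rfl

theorem far_symm {M g w : ℕ} {a b : Fin M × BE g w} (h : far a b) : far b a := by
  intro e
  obtain ⟨h1, h2, h3⟩ := h e.symm
  refine ⟨?_, fun e => (h2 e.symm).symm, fun e => (h3 e.symm).symm⟩
  rcases h1 with h1 | h1
  · exact Or.inl h1.symm
  · exact Or.inr h1.symm

theorem far_choice {M g w : ℕ} (φ ψ : Fin M → Fin g → Fin w) (i i' : Fin M) (x x' y y' : Fin g)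
    (h : (i, (x, y)) ≠ (i', (x', y'))) :
    far (i, ((x, φ i x), (y, ψ i y))) (i', ((x', φ i' x'), (y', ψ i' y'))) := by
  intro e
  simp only at e
  subst e
  refine ⟨?_, fun e => ?_, fun e => ?_⟩
  · by_contra hcon
    push Not at hcon
    simp only at hcon
    apply h
    rw [hcon.1, hcon.2]
  · simp only at e ⊢
    rw [e]
  · simp only at e ⊢
    rw [e]

/-- A set of pairwise compatible variables contains at most one variable for each block and cell,
and if it contains one for each, then it comes from transversals. -/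
theorem ftransversal {M g w : ℕ} (hg : 1 ≤ g) (S : Finset (Fin M × BE g w))
    (hS : ∀ a ∈ S, ∀ b ∈ S, a ≠ b → far a b) :
    S.card ≤ M * (g * g) ∧ (S.card = M * (g * g) → ∃ φ ψ : Fin M → Fin g → Fin w,
      ∀ i x y, (i, ((x, φ i x), (y, ψ i y))) ∈ S) := by
  have hC : Fintype.card (Fin M × (Fin g × Fin g)) = M * (g * g) := by
    simp only [Fintype.card_prod, Fintype.card_fin]
  have hinj : Set.InjOn (fun a : Fin M × BE g w => (a.1, (a.2.1.1, a.2.2.1))) S := by
    intro a ha b hb hab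
    simp only [Prod.mk.injEq] at hab
    by_contra hne
    rcases (hS a ha b hb hne hab.1).1 with h | h
    · exact h hab.2.1
    · exact h hab.2.2
  refine ⟨?_, fun hcard => ?_⟩
  · have := card_le_card_of_injOn (s := S) (t := (univ : Finset (Fin M × (Fin g × Fin g))))
      (fun a : Fin M × BE g w => (a.1, (a.2.1.1, a.2.2.1))) (fun a _ => mem_univ _) hinj
    rw [card_univ, hC] at this
    exact this
  · have himg : S.image (fun a : Fin M × BE g w => (a.1, (a.2.1.1, a.2.2.1))) = univ := by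
      apply eq_univ_of_card
      rw [card_image_of_injOn hinj, hcard, hC]
    have hex : ∀ x : Fin M × (Fin g × Fin g), ∃ a ∈ S, (a.1, (a.2.1.1, a.2.2.1)) = x := by
      intro x
      have : x ∈ S.image (fun a : Fin M × BE g w => (a.1, (a.2.1.1, a.2.2.1))) := by
        rw [himg]; exact mem_univ _
      rw [mem_image] at this
      exact this
    choose f hfS hfx using hex
    have hf1 : ∀ i x y, (f (i, (x, y))).1 = i := fun i x y => (Prod.ext_iff.1 (hfx (i, (x, y)))).1
    have hf2 : ∀ i x y, (f (i, (x, y))).2.1.1 = x := fun i x y =>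
      (Prod.ext_iff.1 (Prod.ext_iff.1 (hfx (i, (x, y)))).2).1
    have hf3 : ∀ i x y, (f (i, (x, y))).2.2.1 = y := fun i x y =>
      (Prod.ext_iff.1 (Prod.ext_iff.1 (hfx (i, (x, y)))).2).2
    obtain ⟨z, hz⟩ : ∃ z : Fin g, z = ⟨0, hg⟩ := ⟨_, rfl⟩
    refine ⟨fun i x => (f (i, (x, z))).2.1.2, fun i y => (f (i, (z, y))).2.2.2,
      fun i x y => ?_⟩
    have h1 : (f (i, (x, y))).2.1.2 = (f (i, (x, z))).2.1.2 := by
      by_cases hne : f (i, (x, y)) = f (i, (x, z))
      · rw [hne]
      · exact (hS _ (hfS _) _ (hfS _) hne (by rw [hf1, hf1])).2.1 (by rw [hf2, hf2])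
    have h2 : (f (i, (x, y))).2.2.2 = (f (i, (z, y))).2.2.2 := by
      by_cases hne : f (i, (x, y)) = f (i, (z, y))
      · rw [hne]
      · exact (hS _ (hfS _) _ (hfS _) hne (by rw [hf1, hf1])).2.2 (by rw [hf3, hf3])
    have h3 : (i, ((x, (f (i, (x, z))).2.1.2), (y, (f (i, (z, y))).2.2.2))) = f (i, (x, y)) := by
      rw [← h1, ← h2]
      exact Prod.ext (hf1 i x y).symm (Prod.ext (Prod.ext (hf2 i x y).symm rfl)
        (Prod.ext (hf3 i x y).symm rfl))
    rw [h3]
    exact hfS _

/-- The set of variables belonging to transversals. -/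
theorem choice_set {M g w : ℕ} (φ ψ : Fin M → Fin g → Fin w) :
    ∃ S : Finset (Fin M × BE g w), S.card = M * (g * g) ∧
      (∀ a ∈ S, ∀ b ∈ S, a ≠ b → far a b) ∧
      (∀ a ∈ S, ∃ x y, a.2 = ((x, φ a.1 x), (y, ψ a.1 y))) := by
  refine ⟨univ.image fun c : Fin M × (Fin g × Fin g) =>
    (c.1, ((c.2.1, φ c.1 c.2.1), (c.2.2, ψ c.1 c.2.2))), ?_, ?_, ?_⟩
  · rw [card_image_of_injective, card_univ]
    · simp only [Fintype.card_prod, Fintype.card_fin]
    · rintro ⟨i, x, y⟩ ⟨i', x', y'⟩ h
      simp only [Prod.mk.injEq] at h ⊢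
      exact ⟨h.1, h.2.1.1, h.2.2.1⟩
  · intro a ha b hb hab
    rw [mem_image] at ha hb
    obtain ⟨⟨i, x, y⟩, -, rfl⟩ := ha
    obtain ⟨⟨i', x', y'⟩, -, rfl⟩ := hb
    apply far_choice
    rintro h
    apply hab
    simp only [Prod.mk.injEq] at h
    obtain ⟨rfl, rfl, rfl⟩ := h
    rfl
  · intro a ha
    rw [mem_image] at ha
    obtain ⟨⟨i, x, y⟩, -, rfl⟩ := ha
    exact ⟨x, y, rfl⟩

/-- Adjacency of the matching gadget: the two end points of the edge of a variable are adjacent if
the variable is true. -/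
def madj {M g w u : ℕ} (y : Fin M → Set (BE g w)) :
    ((Fin M × BE g w) ⊕ (Fin M × BE g w)) ⊕ Fin u →
      ((Fin M × BE g w) ⊕ (Fin M × BE g w)) ⊕ Fin u → Prop
  | .inl (.inl a), .inl (.inl b) => far a b
  | .inl (.inr a), .inl (.inr b) => far a b
  | .inl (.inl a), .inl (.inr b) => far a b ∨ (a = b ∧ a.2 ∈ y a.1)
  | .inl (.inr a), .inl (.inl b) => far a b ∨ (a = b ∧ a.2 ∈ y a.1)
  | .inr a, .inr b => a ≠ b
  | .inr _, .inl _ => True
  | .inl _, .inr _ => True

/-- The matching gadget. -/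
def MG {M g w u : ℕ} (y : Fin M → Set (BE g w)) :
    SimpleGraph (((Fin M × BE g w) ⊕ (Fin M × BE g w)) ⊕ Fin u) where
  Adj := madj y
  symm := ⟨by
    rintro ((a | a) | a) ((b | b) | b) h
    · exact far_symm h
    · rcases h with h | ⟨rfl, h⟩
      · exact Or.inl (far_symm h)
      · exact Or.inr ⟨rfl, h⟩
    · trivial
    · rcases h with h | ⟨rfl, h⟩
      · exact Or.inl (far_symm h)
      · exact Or.inr ⟨rfl, h⟩
    · exact far_symm h
    · trivial
    · trivial
    · trivial
    · exact Ne.symm h⟩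
  loopless := ⟨by
    rintro ((a | a) | a) h
    · exact far_irrefl a h
    · exact far_irrefl a h
    · exact h rfl⟩

theorem MG_mono {M g w u : ℕ} {y y' : Fin M → Set (BE g w)} (h : ∀ i, y i ⊆ y' i) :
    (MG y : SimpleGraph (((Fin M × BE g w) ⊕ (Fin M × BE g w)) ⊕ Fin u)) ≤ MG y' := by
  intro a b hab
  change madj y a b at hab
  change madj y' a b
  rcases a with (a | a) | a <;> rcases b with (b | b) | b
  · exact hab
  · exact hab.imp id (And.imp id fun h' => h _ h')
  · exact hab
  · exact hab.imp id (And.imp id fun h' => h _ h')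
  · exact hab
  · exact hab
  · exact hab
  · exact hab
  · exact hab

theorem MG_leaf {M g w u : ℕ} (a b : ((Fin M × BE g w) ⊕ (Fin M × BE g w)) ⊕ Fin u) :
    (∃ t : Prop, ∀ y : Fin M → Set (BE g w), (MG y).Adj a b ↔ t) ∨
    (∃ c, ((a = .inl (.inl c) ∧ b = .inl (.inr c)) ∨ (a = .inl (.inr c) ∧ b = .inl (.inl c))) ∧
      ∀ y : Fin M → Set (BE g w), (MG y).Adj a b ↔ c.2 ∈ y c.1) := by
  rcases a with (a | a) | a <;> rcases b with (b | b) | b
  · exact Or.inl ⟨_, fun y => Iff.rfl⟩
  · by_cases hab : a = b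
    · subst hab
      refine Or.inr ⟨a, Or.inl ⟨rfl, rfl⟩, fun y => ?_⟩
      show (far a a ∨ (a = a ∧ a.2 ∈ y a.1)) ↔ _
      simp [far_irrefl a]
    · refine Or.inl ⟨far a b, fun y => ?_⟩
      show (far a b ∨ (a = b ∧ a.2 ∈ y a.1)) ↔ _
      simp [hab]
  · exact Or.inl ⟨_, fun y => Iff.rfl⟩
  · by_cases hab : a = b
    · subst hab
      refine Or.inr ⟨a, Or.inr ⟨rfl, rfl⟩, fun y => ?_⟩
      show (far a a ∨ (a = a ∧ a.2 ∈ y a.1)) ↔ _
      simp [far_irrefl a]
    · refine Or.inl ⟨far a b, fun y => ?_⟩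
      show (far a b ∨ (a = b ∧ a.2 ∈ y a.1)) ↔ _
      simp [hab]
  · exact Or.inl ⟨_, fun y => Iff.rfl⟩
  · exact Or.inl ⟨_, fun y => Iff.rfl⟩
  · exact Or.inl ⟨_, fun y => Iff.rfl⟩
  · exact Or.inl ⟨_, fun y => Iff.rfl⟩
  · exact Or.inl ⟨_, fun y => Iff.rfl⟩

theorem MG_clique {M g w u : ℕ} (hg : 1 ≤ g) (y : Fin M → Set (BE g w)) :
    (∃ c : Finset (((Fin M × BE g w) ⊕ (Fin M × BE g w)) ⊕ Fin u),
      (MG y).IsClique (c : Set (((Fin M × BE g w) ⊕ (Fin M × BE g w)) ⊕ Fin u)) ∧
      u + 2 * (M * (g * g)) ≤ c.card) ↔ ∀ i, TC (y i) := by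
  constructor
  · rintro ⟨c, hc, hcard⟩
    have hadj : ∀ a ∈ c, ∀ b ∈ c, a ≠ b → madj y a b := fun a ha b hb hab => hc ha hb hab
    have hL := ftransversal hg c.toLeft.toLeft (by
      intro a ha b hb hab
      rw [mem_toLeft, mem_toLeft] at ha hb
      exact hadj _ ha _ hb (fun h => hab (Sum.inl_injective (Sum.inl_injective h))))
    have hR := ftransversal hg c.toLeft.toRight (by
      intro a ha b hb hab
      rw [mem_toRight, mem_toLeft] at ha hb
      exact hadj _ ha _ hb (fun h => hab (Sum.inr_injective (Sum.inl_injective h))))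
    have hU : c.toRight.card ≤ u := by
      have := card_le_univ c.toRight
      simpa using this
    have h1 := card_toLeft_add_card_toRight (u := c)
    have h2 := card_toLeft_add_card_toRight (u := c.toLeft)
    have hLc : c.toLeft.toLeft.card = M * (g * g) := by have := hL.1; have := hR.1; omega
    have hRc : c.toLeft.toRight.card = M * (g * g) := by have := hL.1; have := hR.1; omega
    obtain ⟨φ, ψ, hφ⟩ := hL.2 hLc
    obtain ⟨φ', ψ', hφ'⟩ := hR.2 hRc
    intro i
    refine ⟨φ i, ψ i, fun x z => ?_⟩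
    have ha := hφ i x z
    have hb := hφ' i x z
    rw [mem_toLeft, mem_toLeft] at ha
    rw [mem_toRight, mem_toLeft] at hb
    rcases hadj _ ha _ hb (by simp) with h | ⟨-, h⟩
    · rcases (h rfl).1 with h' | h'
      · exact absurd rfl h'
      · exact absurd rfl h'
    · exact h
  · intro h
    choose φ ψ h using h
    obtain ⟨S, hS, hSf, hSm⟩ := choice_set φ ψ
    refine ⟨(S.disjSum S).disjSum univ, ?_, ?_⟩
    · intro a ha b hb hab
      change madj y a b
      rcases a with (a | a) | a <;> rcases b with (b | b) | b <;>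
        simp only [mem_coe, Sum.inl.injEq, Sum.inr.injEq, reduceCtorEq,
          inl_mem_disjSum, inr_mem_disjSum, mem_univ, ne_eq,
          not_false_eq_true] at ha hb hab ⊢
      · exact hSf a ha b hb hab
      · by_cases heq : a = b
        · right
          refine ⟨heq, ?_⟩
          obtain ⟨x, z, hxz⟩ := hSm a ha
          rw [hxz]
          exact h a.1 x z
        · exact Or.inl (hSf a ha b hb heq)
      · trivial
      · by_cases heq : a = b
        · right
          refine ⟨heq, ?_⟩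
          obtain ⟨x, z, hxz⟩ := hSm a ha
          rw [hxz]
          exact h a.1 x z
        · exact Or.inl (hSf a ha b hb heq)
      · exact hSf a ha b hb hab
      · trivial
      · trivial
      · trivial
      · exact hab
    · rw [card_disjSum, card_disjSum, hS, card_univ, Fintype.card_fin]
      omega

/-- Adjacency of the star gadget: the centre is adjacent to the end point of the edge of a variable
if the variable is true. -/
def sadj {M g w u : ℕ} (y : Fin M → Set (BE g w)) :
    ((Fin M × BE g w) ⊕ Unit) ⊕ Fin u → ((Fin M × BE g w) ⊕ Unit) ⊕ Fin u → Prop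
  | .inl (.inl a), .inl (.inl b) => far a b
  | .inl (.inr _), .inl (.inr _) => False
  | .inl (.inl a), .inl (.inr _) => a.2 ∈ y a.1
  | .inl (.inr _), .inl (.inl b) => b.2 ∈ y b.1
  | .inr a, .inr b => a ≠ b
  | .inr _, .inl _ => True
  | .inl _, .inr _ => True

/-- The star gadget. -/
def SG {M g w u : ℕ} (y : Fin M → Set (BE g w)) :
    SimpleGraph (((Fin M × BE g w) ⊕ Unit) ⊕ Fin u) where
  Adj := sadj y
  symm := ⟨by
    rintro ((a | a) | a) ((b | b) | b) h
    · exact far_symm h
    · exact h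
    · trivial
    · exact h
    · exact h
    · trivial
    · trivial
    · trivial
    · exact Ne.symm h⟩
  loopless := ⟨by
    rintro ((a | a) | a) h
    · exact far_irrefl a h
    · exact h
    · exact h rfl⟩

theorem SG_mono {M g w u : ℕ} {y y' : Fin M → Set (BE g w)} (h : ∀ i, y i ⊆ y' i) :
    (SG y : SimpleGraph (((Fin M × BE g w) ⊕ Unit) ⊕ Fin u)) ≤ SG y' := by
  intro a b hab
  change sadj y a b at hab
  change sadj y' a b
  rcases a with (a | a) | a <;> rcases b with (b | b) | b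
  · exact hab
  · exact h _ hab
  · exact hab
  · exact h _ hab
  · exact hab
  · exact hab
  · exact hab
  · exact hab
  · exact hab

theorem SG_leaf {M g w u : ℕ} (a b : ((Fin M × BE g w) ⊕ Unit) ⊕ Fin u) :
    (∃ t : Prop, ∀ y : Fin M → Set (BE g w), (SG y).Adj a b ↔ t) ∨
    (∃ c, ((a = .inl (.inl c) ∧ b = .inl (.inr ())) ∨ (a = .inl (.inr ()) ∧ b = .inl (.inl c))) ∧
      ∀ y : Fin M → Set (BE g w), (SG y).Adj a b ↔ c.2 ∈ y c.1) := by
  rcases a with (a | a) | a <;> rcases b with (b | b) | b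
  · exact Or.inl ⟨_, fun y => Iff.rfl⟩
  · exact Or.inr ⟨a, Or.inl ⟨rfl, rfl⟩, fun y => Iff.rfl⟩
  · exact Or.inl ⟨_, fun y => Iff.rfl⟩
  · exact Or.inr ⟨b, Or.inr ⟨rfl, rfl⟩, fun y => Iff.rfl⟩
  · exact Or.inl ⟨_, fun y => Iff.rfl⟩
  · exact Or.inl ⟨_, fun y => Iff.rfl⟩
  · exact Or.inl ⟨_, fun y => Iff.rfl⟩
  · exact Or.inl ⟨_, fun y => Iff.rfl⟩
  · exact Or.inl ⟨_, fun y => Iff.rfl⟩

theorem SG_clique {M g w u : ℕ} (hg : 1 ≤ g) (y : Fin M → Set (BE g w)) :
    (∃ c : Finset (((Fin M × BE g w) ⊕ Unit) ⊕ Fin u),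
      (SG y).IsClique (c : Set (((Fin M × BE g w) ⊕ Unit) ⊕ Fin u)) ∧
      u + (M * (g * g) + 1) ≤ c.card) ↔ ∀ i, TC (y i) := by
  constructor
  · rintro ⟨c, hc, hcard⟩
    have hadj : ∀ a ∈ c, ∀ b ∈ c, a ≠ b → sadj y a b := fun a ha b hb hab => hc ha hb hab
    have hL := ftransversal hg c.toLeft.toLeft (by
      intro a ha b hb hab
      rw [mem_toLeft, mem_toLeft] at ha hb
      exact hadj _ ha _ hb (fun h => hab (Sum.inl_injective (Sum.inl_injective h))))
    have hR : c.toLeft.toRight.card ≤ 1 := by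
      have := card_le_univ c.toLeft.toRight
      simpa using this
    have hU : c.toRight.card ≤ u := by
      have := card_le_univ c.toRight
      simpa using this
    have h1 := card_toLeft_add_card_toRight (u := c)
    have h2 := card_toLeft_add_card_toRight (u := c.toLeft)
    have hLc : c.toLeft.toLeft.card = M * (g * g) := by have := hL.1; omega
    have hRc : c.toLeft.toRight.card = 1 := by have := hL.1; omega
    obtain ⟨φ, ψ, hφ⟩ := hL.2 hLc
    obtain ⟨v, hv⟩ := Finset.card_pos.1 (by omega : 0 < c.toLeft.toRight.card)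
    intro i
    refine ⟨φ i, ψ i, fun x z => ?_⟩
    have ha := hφ i x z
    rw [mem_toLeft, mem_toLeft] at ha
    rw [mem_toRight, mem_toLeft] at hv
    exact hadj _ ha _ hv (by simp)
  · intro h
    choose φ ψ h using h
    obtain ⟨S, hS, hSf, hSm⟩ := choice_set φ ψ
    have hval : ∀ a ∈ S, a.2 ∈ y a.1 := by
      intro a ha
      obtain ⟨x, z, hxz⟩ := hSm a ha
      rw [hxz]
      exact h a.1 x z
    refine ⟨(S.disjSum univ).disjSum univ, ?_, ?_⟩
    · intro a ha b hb hab
      change sadj y a b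
      rcases a with (a | a) | a <;> rcases b with (b | b) | b <;>
        simp only [mem_coe, Sum.inl.injEq, Sum.inr.injEq, reduceCtorEq,
          inl_mem_disjSum, inr_mem_disjSum, mem_univ, ne_eq,
          not_false_eq_true, not_true_eq_false] at ha hb hab ⊢
      · exact hSf a ha b hb hab
      · exact hval a ha
      · trivial
      · exact hval b hb
      · trivial
      · trivial
      · trivial
      · exact hab
    · rw [card_disjSum, card_disjSum, hS, card_univ, card_univ, Fintype.card_fin]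
      simp only [Fintype.card_unit]
      omega

end Pool.Agent.T9h35
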