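import Pool.Agent.T9h35.Nondet
import Pool.Agent.T9h35.Gadget

set_option autoImplicit false

namespace Pool.Agent.T9h35

open Finset Pool.Agent.T9h16
open scoped Classical

/-- The conjunction of `M` copies of the block function is a restriction of the `k`-clique problem
all of whose variables are edges of `H`. -/
def Emb (n k M g w : ℕ) (H : SimpleGraph (Fin n)) : Prop :=
  ∃ G : (Fin M → Set (BE g w)) → SimpleGraph (Fin n),
    (∀ y y', (∀ i, y i ⊆ y' i) → G y ≤ G y') ∧
    (∀ a b : Fin n, (∃ t : Prop, ∀ y, (G y).Adj a b ↔ t) ∨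
      (H.Adj a b ∧ ∃ i e, ∀ y, (G y).Adj a b ↔ e ∈ y i)) ∧
    (∀ y, (∃ c : Finset (Fin n), (G y).IsClique (c : Set (Fin n)) ∧ k ≤ c.card) ↔
      ∀ i, TC (y i))

/-- Placing a family of graphs on some vertices of a bigger vertex set. -/
theorem transfer {V : Type} [Fintype V] {n k M g w : ℕ} (hk : 2 ≤ k) (H : SimpleGraph (Fin n))
    (J : (Fin M → Set (BE g w)) → SimpleGraph V) (hJm : ∀ y y', (∀ i, y i ⊆ y' i) → J y ≤ J y')
    (ι : V ↪ Fin n)
    (hJl : ∀ a b : V, (∃ t : Prop, ∀ y, (J y).Adj a b ↔ t) ∨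
      (H.Adj (ι a) (ι b) ∧ ∃ i e, ∀ y, (J y).Adj a b ↔ e ∈ y i))
    (hJc : ∀ y, (∃ c : Finset V, (J y).IsClique (c : Set V) ∧ k ≤ c.card) ↔ ∀ i, TC (y i)) :
    Emb n k M g w H := by
  refine ⟨fun y => (J y).map ι, ?_, ?_, ?_⟩
  · intro y y' h
    exact SimpleGraph.map_monotone ι (hJm y y' h)
  · intro a b
    by_cases ha : ∃ u', ι u' = a
    · by_cases hb : ∃ v', ι v' = b
      · obtain ⟨a', rfl⟩ := ha
        obtain ⟨b', rfl⟩ := hb
        simp only [SimpleGraph.map_adj_apply]
        exact hJl a' b'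
      · left
        refine ⟨False, fun y => ?_⟩
        simp only [SimpleGraph.map_adj, iff_false, not_exists, not_and]
        rintro u' v' _ _ h
        exact hb ⟨v', h⟩
    · left
      refine ⟨False, fun y => ?_⟩
      simp only [SimpleGraph.map_adj, iff_false, not_exists, not_and]
      rintro u' v' _ h _
      exact ha ⟨u', h⟩
  · intro y
    rw [← hJc y]
    constructor
    · rintro ⟨c, hc, hck⟩
      have hrange : ∀ a ∈ c, ∃ a', ι a' = a := by
        intro a ha
        obtain ⟨b, hb, hba⟩ : ∃ b ∈ c, b ≠ a := by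
          apply exists_mem_ne (by omega)
        have := hc hb ha hba
        rw [SimpleGraph.map_adj] at this
        obtain ⟨u', v', _, _, h⟩ := this
        exact ⟨v', h⟩
      refine ⟨univ.filter fun a => ι a ∈ c, ?_, ?_⟩
      · intro a ha b hb hab
        simp only [coe_filter, mem_univ, true_and, Set.mem_ofPred_eq] at ha hb
        have := hc ha hb (fun h => hab (ι.injective h))
        rwa [SimpleGraph.map_adj_apply] at this
      · have : c ⊆ (univ.filter fun a => ι a ∈ c).map ι := by
          intro a ha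
          obtain ⟨a', rfl⟩ := hrange a ha
          simp only [mem_map, mem_filter, mem_univ, true_and]
          exact ⟨a', ha, rfl⟩
        have := card_le_card this
        rw [card_map] at this
        omega
    · rintro ⟨c, hc, hck⟩
      refine ⟨c.map ι, ?_, ?_⟩
      · rw [coe_map]
        exact hc.map
      · rw [card_map]
        omega

/-- Extending an injection by further vertices. -/
theorem extend_emb {A : Type} [Fintype A] {n : ℕ} (f : A ↪ Fin n) (u : ℕ)
    (h : Fintype.card A + u ≤ n) : ∃ ι : A ⊕ Fin u ↪ Fin n, ∀ a, ι (.inl a) = f a := by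
  have hcard : Fintype.card (Fin u) ≤ Fintype.card {x : Fin n // x ∉ univ.map f} := by
    rw [Fintype.card_fin, Fintype.card_subtype_compl, Fintype.card_fin, Fintype.card_coe, card_map,
      card_univ]
    omega
  obtain ⟨e⟩ := Function.Embedding.nonempty_of_card_le hcard
  refine ⟨⟨Sum.elim f fun j => (e j : Fin n), ?_⟩, fun a => rfl⟩
  apply Function.Injective.sumElim f.injective
  · intro j j' hj
    exact e.injective (Subtype.ext hj)
  · intro a j haj
    apply (e j).2
    rw [← haj]
    exact mem_map_of_mem f (mem_univ a)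

theorem emb_matching {n k M g w u : ℕ} (hg : 1 ≤ g) (H : SimpleGraph (Fin n))
    (hk : k = u + 2 * (M * (g * g))) (hk2 : 2 ≤ k)
    (f : (Fin M × BE g w) ⊕ (Fin M × BE g w) ↪ Fin n)
    (hf : ∀ c, H.Adj (f (.inl c)) (f (.inr c)))
    (hn : Fintype.card ((Fin M × BE g w) ⊕ (Fin M × BE g w)) + u ≤ n) : Emb n k M g w H := by
  obtain ⟨ι, hι⟩ := extend_emb f u hn
  refine transfer hk2 H (fun y => MG y) (fun y y' h => MG_mono h) ι ?_ ?_
  · intro a b
    rcases MG_leaf a b with h | ⟨c, hc, h⟩
    · exact Or.inl h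
    · refine Or.inr ⟨?_, c.1, c.2, h⟩
      rcases hc with ⟨rfl, rfl⟩ | ⟨rfl, rfl⟩
      · rw [hι, hι]
        exact hf c
      · rw [hι, hι]
        exact (hf c).symm
  · intro y
    rw [hk]
    exact MG_clique hg y

theorem emb_star {n k M g w u : ℕ} (hg : 1 ≤ g) (H : SimpleGraph (Fin n))
    (hk : k = u + (M * (g * g) + 1)) (hk2 : 2 ≤ k)
    (f : (Fin M × BE g w) ⊕ Unit ↪ Fin n)
    (hf : ∀ c, H.Adj (f (.inl c)) (f (.inr ())))
    (hn : Fintype.card ((Fin M × BE g w) ⊕ Unit) + u ≤ n) : Emb n k M g w H := by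
  obtain ⟨ι, hι⟩ := extend_emb f u hn
  refine transfer hk2 H (fun y => SG y) (fun y y' h => SG_mono h) ι ?_ ?_
  · intro a b
    rcases SG_leaf a b with h | ⟨c, hc, h⟩
    · exact Or.inl h
    · refine Or.inr ⟨?_, c.1, c.2, h⟩
      rcases hc with ⟨rfl, rfl⟩ | ⟨rfl, rfl⟩
      · rw [hι, hι]
        exact hf c
      · rw [hι, hι]
        exact (hf c).symm
  · intro y
    rw [hk]
    exact SG_clique hg y

/-- A graph with many edges contains a large star or a large matching. -/
theorem star_or_matching {n : ℕ} (H : SimpleGraph (Fin n)) (m : ℕ) (hm : 1 ≤ m)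
    (hH : 2 * (m * m) ≤ H.edgeSet.ncard) :
    (∃ f : Fin m ⊕ Unit ↪ Fin n, ∀ j, H.Adj (f (.inl j)) (f (.inr ()))) ∨
    (∃ f : Fin m ⊕ Fin m ↪ Fin n, ∀ j, H.Adj (f (.inl j)) (f (.inr j))) := by
  by_cases hstar : ∃ v, m ≤ H.degree v
  · left
    obtain ⟨v, hv⟩ := hstar
    have hcard : Fintype.card (Fin m) ≤ Fintype.card {x : Fin n // x ∈ H.neighborFinset v} := by
      rw [Fintype.card_fin, Fintype.card_coe]
      exact hv
    obtain ⟨e⟩ := Function.Embedding.nonempty_of_card_le hcard
    have hadj : ∀ j, H.Adj v (e j : Fin n) := fun j => (H.mem_neighborFinset v _).1 (e j).2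
    refine ⟨⟨Sum.elim (fun j => (e j : Fin n)) fun _ => v, ?_⟩, fun j => (hadj j).symm⟩
    apply Function.Injective.sumElim
    · intro j j' hj
      exact e.injective (Subtype.ext hj)
    · intro a b _
      rfl
    · intro j _ h
      exact (hadj j).ne h.symm
  · right
    push Not at hstar
    have hcardE : H.edgeSet.ncard = H.edgeFinset.card := by
      rw [← SimpleGraph.coe_edgeFinset, Set.ncard_coe_finset]
    have key : ∀ j ≤ m, ∃ S : Finset (Fin n × Fin n), S.card = j ∧ (∀ p ∈ S, H.Adj p.1 p.2) ∧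
        ∀ p ∈ S, ∀ q ∈ S, p ≠ q → p.1 ≠ q.1 ∧ p.1 ≠ q.2 ∧ p.2 ≠ q.1 ∧ p.2 ≠ q.2 := by
      intro j
      induction j with
      | zero =>
        intro _
        exact ⟨∅, rfl, fun p hp => absurd hp (notMem_empty _),
          fun p hp => absurd hp (notMem_empty _)⟩
      | succ j ih =>
        intro hj
        obtain ⟨S, hS, hSadj, hSdis⟩ := ih (by omega)
        obtain ⟨C, hC⟩ : ∃ C : Finset (Fin n), C = S.image Prod.fst ∪ S.image Prod.snd := ⟨_, rfl⟩
        have hCc : C.card ≤ 2 * j := by
          rw [hC]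
          calc (S.image Prod.fst ∪ S.image Prod.snd).card
              ≤ (S.image Prod.fst).card + (S.image Prod.snd).card := card_union_le _ _
            _ ≤ S.card + S.card := Nat.add_le_add card_image_le card_image_le
            _ = 2 * j := by rw [hS]; ring
        obtain ⟨a, b, hab, ha, hb⟩ : ∃ a b, H.Adj a b ∧ a ∉ C ∧ b ∉ C := by
          by_contra hcon
          push Not at hcon
          have hsub : H.edgeFinset ⊆ C.biUnion fun v => H.incidenceFinset v := by
            intro e he
            induction e using Sym2.ind with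
            | _ a b =>
              rw [SimpleGraph.mem_edgeFinset, SimpleGraph.mem_edgeSet] at he
              rw [mem_biUnion]
              by_cases ha : a ∈ C
              · refine ⟨a, ha, ?_⟩
                rw [SimpleGraph.mem_incidenceFinset, SimpleGraph.mem_incidenceSet]
                exact he
              · refine ⟨b, hcon a b he ha, ?_⟩
                rw [SimpleGraph.mem_incidenceFinset, Sym2.eq_swap, SimpleGraph.mem_incidenceSet]
                exact he.symm
          have h1 : H.edgeFinset.card ≤ 2 * j * (m - 1) := by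
            calc H.edgeFinset.card ≤ (C.biUnion fun v => H.incidenceFinset v).card :=
                  card_le_card hsub
              _ ≤ ∑ v ∈ C, (H.incidenceFinset v).card := card_biUnion_le
              _ ≤ ∑ _v ∈ C, (m - 1) := by
                  refine sum_le_sum fun v _ => ?_
                  rw [SimpleGraph.card_incidenceFinset_eq_degree]
                  have := hstar v
                  omega
              _ = C.card * (m - 1) := by rw [sum_const, smul_eq_mul]
              _ ≤ 2 * j * (m - 1) := Nat.mul_le_mul_right _ hCc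
          have h2 : 2 * j * (m - 1) < 2 * (m * m) := by
            calc 2 * j * (m - 1) ≤ 2 * j * m := Nat.mul_le_mul_left _ (Nat.sub_le _ _)
              _ < 2 * m * m := by
                  apply Nat.mul_lt_mul_of_pos_right _ hm
                  omega
              _ = 2 * (m * m) := by ring
          omega
        have hnot : ∀ p ∈ S, p.1 ∈ C ∧ p.2 ∈ C := by
          intro p hp
          rw [hC]
          exact ⟨mem_union_left _ (mem_image_of_mem _ hp), mem_union_right _ (mem_image_of_mem _ hp)⟩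
        have habS : (a, b) ∉ S := fun h => ha (hnot _ h).1
        refine ⟨insert (a, b) S, ?_, ?_, ?_⟩
        · rw [card_insert_of_notMem habS, hS]
        · intro p hp
          rcases mem_insert.1 hp with rfl | hp
          · exact hab
          · exact hSadj p hp
        · intro p hp q hq hpq
          rcases mem_insert.1 hp with rfl | hp <;> rcases mem_insert.1 hq with rfl | hq
          · exact absurd rfl hpq
          · have := hnot q hq
            exact ⟨fun h => ha (by rw [show a = q.1 from h]; exact this.1),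
              fun h => ha (by rw [show a = q.2 from h]; exact this.2),
              fun h => hb (by rw [show b = q.1 from h]; exact this.1),
              fun h => hb (by rw [show b = q.2 from h]; exact this.2)⟩
          · have := hnot p hp
            exact ⟨fun h => ha (by rw [← show p.1 = a from h]; exact this.1),
              fun h => hb (by rw [← show p.1 = b from h]; exact this.1),
              fun h => ha (by rw [← show p.2 = a from h]; exact this.2),
              fun h => hb (by rw [← show p.2 = b from h]; exact this.2)⟩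
          · exact hSdis p hp q hq hpq
    obtain ⟨S, hS, hSadj, hSdis⟩ := key m le_rfl
    have hcard : Fintype.card (Fin m) ≤ Fintype.card {x : Fin n × Fin n // x ∈ S} := by
      rw [Fintype.card_fin, Fintype.card_coe, hS]
    obtain ⟨e⟩ := Function.Embedding.nonempty_of_card_le hcard
    have hne : ∀ j j', j ≠ j' → ((e j : Fin n × Fin n) ≠ (e j' : Fin n × Fin n)) := by
      intro j j' hj h
      exact hj (e.injective (Subtype.ext h))
    refine ⟨⟨Sum.elim (fun j => (e j : Fin n × Fin n).1) fun j => (e j : Fin n × Fin n).2, ?_⟩,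
      fun j => hSadj _ (e j).2⟩
    apply Function.Injective.sumElim
    · intro j j' h
      by_contra hj
      exact (hSdis _ (e j).2 _ (e j').2 (hne j j' hj)).1 h
    · intro j j' h
      by_contra hj
      exact (hSdis _ (e j).2 _ (e j').2 (hne j j' hj)).2.2.2 h
    · intro j j' h
      by_cases hj : j = j'
      · subst hj
        exact (hSadj _ (e j).2).ne h
      · exact (hSdis _ (e j).2 _ (e j').2 (hne j j' hj)).2.1 h

theorem emb_exists {n k M g w : ℕ} (hg : 1 ≤ g) (hw : 1 ≤ w) (hM : 1 ≤ M)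
    (H : SimpleGraph (Fin n))
    (hH : 2 * ((M * (g * w) ^ 2) * (M * (g * w) ^ 2)) ≤ H.edgeSet.ncard)
    (hk : 2 * (M * (g * w) ^ 2) ≤ k) (hn : 2 * (M * (g * w) ^ 2) ≤ n - k) :
    Emb n k M g w H := by
  have hE : Fintype.card (Fin M × BE g w) = M * (g * w) ^ 2 := by
    simp only [Fintype.card_prod, Fintype.card_fin]
    ring
  have hm : 1 ≤ M * (g * w) ^ 2 := by
    have : 0 < M * (g * w) ^ 2 := by positivity
    exact this
  have hgg : M * (g * g) ≤ M * (g * w) ^ 2 := by
    apply Nat.mul_le_mul_left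
    calc g * g = g * g * 1 := by ring
      _ ≤ g * g * (w * w) := Nat.mul_le_mul_left _ (Nat.mul_pos hw hw)
      _ = (g * w) ^ 2 := by ring
  have hgg1 : 1 ≤ M * (g * g) := by
    have : 0 < M * (g * g) := by positivity
    exact this
  obtain ⟨eq⟩ : Nonempty (Fin M × BE g w ≃ Fin (M * (g * w) ^ 2)) :=
    ⟨Fintype.equivFinOfCardEq hE⟩
  rcases star_or_matching H (M * (g * w) ^ 2) hm hH with ⟨f, hf⟩ | ⟨f, hf⟩
  · refine emb_star (u := k - (M * (g * g) + 1)) hg H (by omega) (by omega)
      ((Function.Embedding.sumMap eq.toEmbedding (Function.Embedding.refl Unit)).trans f) ?_ ?_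
    · intro c
      exact hf (eq c)
    · rw [Fintype.card_sum, hE, Fintype.card_unit]
      omega
  · refine emb_matching (u := k - 2 * (M * (g * g))) hg H (by omega) (by omega)
      ((Function.Embedding.sumMap eq.toEmbedding eq.toEmbedding).trans f) ?_ ?_
    · intro c
      exact hf (eq c)
    · rw [Fintype.card_sum, hE]
      omega

/-- The main step: the edges outside `H` may be used freely. -/
theorem core_free {κ : Type} [Fintype κ] (n k M r s : ℕ) (hr : 2 ≤ r) (H : SimpleGraph (Fin n))
    (hemb : Emb n k M (GG r) (2 * r) H)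
    (hs : ((GG r * (2 * r)) ^ 2 + 1) * s ≤ 2 ^ r)
    (D : κ → SimpleGraph (Fin n) → MonoCircuit n) (hD : ∀ u R, (D u R).size ≤ s)
    (hcl : ∀ G : SimpleGraph (Fin n), (∃ u, (D u (G \ H)).Accepts G) ↔
      ∃ c : Finset (Fin n), G.IsClique (c : Set (Fin n)) ∧ k ≤ c.card) :
    2 ^ M ≤ Fintype.card κ := by
  by_contra hcon
  rw [not_le] at hcon
  have hg1 : 1 ≤ GG r := (two_le_GG r hr).trans' (by norm_num)
  obtain ⟨G, hGm, hGl, hGc⟩ := hemb
  obtain ⟨R, hR⟩ : ∃ R, R = G (fun _ => Set.univ) \ H := ⟨_, rfl⟩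
  have hGR : ∀ y, G y \ H = R := by
    intro y
    rw [hR]
    ext a b
    rw [SimpleGraph.sdiff_adj, SimpleGraph.sdiff_adj]
    rcases hGl a b with ⟨t, ht⟩ | ⟨h, -⟩
    · rw [ht, ht]
    · simp [h]
  have hcl' : ∀ y, (∃ u, (D u R).Accepts (G y)) ↔ ∀ i, TC (y i) := by
    intro y
    rw [← hGc, ← hcl, hGR]
  have hTCu : TC (Set.univ : Set (BE (GG r) (2 * r))) :=
    ⟨fun _ => ⟨0, by omega⟩, fun _ => ⟨0, by omega⟩, fun _ _ => Set.mem_univ _⟩
  obtain ⟨y, i, hyP, hyi, hst⟩ := stuck (ι := Fin M) (κ := κ)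
    (fun y => univ.filter fun u => (D u R).Accepts (G y)) TC Set.univ
    hTCu
    (by
      intro y hy
      obtain ⟨u, hu⟩ := (hcl' y).2 hy
      exact ⟨u, Finset.mem_filter.2 ⟨Finset.mem_univ _, hu⟩⟩)
    (by
      refine lt_of_le_of_lt (Finset.card_le_univ _) ?_
      rwa [Fintype.card_fin])
  obtain ⟨Γ, hΓ⟩ : ∃ Γ : Set (BE (GG r) (2 * r)) → SimpleGraph (Fin n),
      ∀ z, Γ z = G (Function.update y i z) := ⟨_, fun _ => rfl⟩
  have hleaf : ∀ a b, Leaf fun z => (Γ z).Adj a b := by
    intro a b
    rcases hGl a b with ⟨t, ht⟩ | ⟨-, i', e, he⟩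
    · refine Or.inr ⟨t, fun z => ?_⟩
      show (Γ z).Adj a b ↔ _
      rw [hΓ, ht]
    · by_cases hii : i' = i
      · refine Or.inl ⟨e, fun z => ?_⟩
        show (Γ z).Adj a b ↔ _
        rw [hΓ, he, hii, Function.update_self]
      · refine Or.inr ⟨e ∈ y i', fun z => ?_⟩
        show (Γ z).Adj a b ↔ _
        rw [hΓ, he, Function.update_of_ne hii]
  have hE : Fintype.card (BE (GG r) (2 * r)) = (GG r * (2 * r)) ^ 2 := by
    simp only [Fintype.card_prod, Fintype.card_fin]
    ring
  obtain ⟨T, -, hTc, hT⟩ := halving (fun z u => (D u R).Accepts (Γ z))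
    (univ.filter fun u => (D u R).Accepts (G y)) ((GG r * (2 * r)) ^ 2 + 1)
    (univ.filter fun z : Set (BE (GG r) (2 * r)) => TC z)
    (lt_of_le_of_lt (Finset.card_le_card (Finset.filter_subset _ _))
      (card_set _ (by rw [hE]; exact Nat.lt_succ_self _)))
    (by
      intro z hz
      have h1 := hst z (Finset.mem_filter.1 hz).2
      refine lt_of_lt_of_le h1 ?_
      apply Nat.mul_le_mul_left
      apply Finset.card_le_card
      intro u hu
      have hu' := (Finset.mem_filter.1 hu).2
      refine Finset.mem_filter.2 ⟨Finset.mem_filter.2 ⟨Finset.mem_univ _, ?_⟩, ?_⟩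
      · refine (D u R).mono (hGm _ _ ?_) hu'
        intro j
        by_cases hji : j = i
        · subst hji
          rw [hyi]
          exact Set.subset_univ _
        · rw [Function.update_of_ne hji]
      · rw [hΓ]
        exact hu')
  obtain ⟨gt, hgt, hav⟩ := (slp_family Γ hleaf (fun u => D u R) (fun u => hD u R) T).mono subset_rfl
    (Nat.mul_le_mul_right s hTc)
  refine hard r hr _ hs gt hgt _ hav ?_ ?_
  · intro z hz
    obtain ⟨u, hu, hzu⟩ := hT z (Finset.mem_filter.2 ⟨Finset.mem_univ _, hz⟩)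
    exact ⟨_, ⟨u, hu, rfl⟩, hzu⟩
  · rintro z hz o ⟨u, -, rfl⟩ ho
    apply hz
    have h1 := (hcl' (Function.update y i z)).1 ⟨u, by rw [← hΓ]; exact ho⟩ i
    rwa [Function.update_self] at h1

/-- The quantitative theorem. -/
theorem main_free {κ : Type} [Fintype κ] (n k s : ℕ) (H : SimpleGraph (Fin n))
    (D : κ → SimpleGraph (Fin n) → MonoCircuit n) (hD : ∀ u R, (D u R).size ≤ s)
    (hcl : ∀ G : SimpleGraph (Fin n), (∃ u, (D u (G \ H)).Accepts G) ↔
      ∃ c : Finset (Fin n), G.IsClique (c : Set (Fin n)) ∧ k ≤ c.card) :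
    min (Nat.sqrt H.edgeSet.ncard) (min k (n - k)) ≤
      30000000000000000 * (Nat.log 2 (Fintype.card κ) + 1) * (Nat.log 2 (n + s) + 1) ^ 7 := by
  obtain ⟨l, hl⟩ : ∃ l, l = Nat.log 2 (n + s) + 1 := ⟨_, rfl⟩
  rw [← hl]
  have hl1 : 1 ≤ l := by omega
  have hns : n + s < 2 ^ l := by
    rw [hl]
    exact Nat.lt_pow_succ_log_self (by norm_num) _
  have hsize := size_bound l s hl1 (by omega)
  obtain ⟨r, hr⟩ : ∃ r, r = 64 * l := ⟨_, rfl⟩
  rw [← hr] at hsize
  have hr2 : 2 ≤ r := by omega
  have hg := two_le_GG r hr2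
  obtain ⟨M, hM⟩ : ∃ M, M = Nat.log 2 (Fintype.card κ) + 1 := ⟨_, rfl⟩
  rw [← hM]
  have hLL2 := LL_sq r (by omega)
  have hb : (GG r * (2 * r)) ^ 2 ≤ 7036874417766400 * l ^ 7 := by
    calc (GG r * (2 * r)) ^ 2 = 64 * r ^ 6 * (LL r) ^ 2 := by rw [GG]; ring
      _ ≤ 64 * r ^ 6 * (25 * r) := Nat.mul_le_mul_left _ hLL2
      _ = 7036874417766400 * l ^ 7 := by rw [hr]; ring
  obtain ⟨B, hB⟩ : ∃ B, B = M * (GG r * (2 * r)) ^ 2 := ⟨_, rfl⟩
  have hBle : 2 * B < 30000000000000000 * M * l ^ 7 := by
    have hM1 : 1 ≤ M := by omega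
    have h1 : 1 ≤ M * l ^ 7 := Nat.mul_pos hM1 (Nat.pow_pos hl1)
    calc 2 * B ≤ 2 * (M * (7036874417766400 * l ^ 7)) := by
          rw [hB]
          exact Nat.mul_le_mul_left _ (Nat.mul_le_mul_left _ hb)
      _ = 14073748835532800 * (M * l ^ 7) := by ring
      _ < 30000000000000000 * (M * l ^ 7) := Nat.mul_lt_mul_of_pos_right (by norm_num) h1
      _ = 30000000000000000 * M * l ^ 7 := by ring
  by_contra hcon
  rw [not_le, lt_min_iff, lt_min_iff] at hcon
  obtain ⟨h1, h2, h3⟩ := hcon
  have h4 : 2 * (B * B) ≤ H.edgeSet.ncard := by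
    calc 2 * (B * B) ≤ (2 * B) * (2 * B) := by nlinarith
      _ ≤ Nat.sqrt H.edgeSet.ncard * Nat.sqrt H.edgeSet.ncard :=
        Nat.mul_le_mul (hBle.trans h1).le (hBle.trans h1).le
      _ ≤ H.edgeSet.ncard := Nat.sqrt_le _
  have hemb : Emb n k M (GG r) (2 * r) H := by
    apply emb_exists (by omega) (by omega) (by omega)
    · rw [← hB]
      exact h4
    · rw [← hB]
      omega
    · rw [← hB]
      omega
  have h5 := core_free n k M r s hr2 H hemb hsize D hD hcl
  have h6 : Fintype.card κ < 2 ^ M := by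
    rw [hM]
    exact Nat.lt_pow_succ_log_self (by norm_num) _
  omega

end Pool.Agent.T9h35
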