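import Pool.Agent.T9h35.Advice
import Mathlib.Analysis.Fourier.FiniteAbelian.PontryaginDuality

set_option autoImplicit false

namespace Pool.Agent.T9h35

open Finset Pool.Agent.T9h16
open scoped Classical

/-- Values `α i` which every character of a set `B` misses rarely. -/
theorem greedy {Λ X : Type} (m : ℕ) (hm : 1 ≤ m) (val : X → Λ → ℂ) (hval : ∀ x i, val x i ^ m = 1)
    (B : Finset X) (S : Finset Λ) :
    ∃ α : Λ → ℂ, (∀ i, α i ≠ 0) ∧
      (B.filter fun x => ∀ i ∈ S, val x i ≠ α i).card * m ^ S.card ≤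
        B.card * (m - 1) ^ S.card := by
  induction S using Finset.induction_on with
  | empty =>
    refine ⟨fun _ => 1, fun _ => one_ne_zero, ?_⟩
    simp
  | insert i S hi ih =>
    obtain ⟨α, hα, hle⟩ := ih
    set B' := B.filter fun x => ∀ i ∈ S, val x i ≠ α i with hB'
    have hpig : ∃ β ∈ Polynomial.nthRootsFinset m (1 : ℂ),
        B'.card ≤ m * (B'.filter fun x => val x i = β).card := by
      by_contra hcon
      push Not at hcon
      have h1 : B'.card = ∑ β ∈ Polynomial.nthRootsFinset m (1 : ℂ),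
          (B'.filter fun x => val x i = β).card :=
        Finset.card_eq_sum_card_fiberwise fun x _ => by
          rw [Finset.mem_coe, Polynomial.mem_nthRootsFinset (by omega)]
          exact hval x i
      have h1' : (1 : ℂ) ∈ Polynomial.nthRootsFinset m (1 : ℂ) := by
        rw [Polynomial.mem_nthRootsFinset (by omega)]
        exact one_pow m
      have hcard : (Polynomial.nthRootsFinset m (1 : ℂ)).card ≤ m := by
        rw [Polynomial.nthRootsFinset_def]
        exact (Multiset.toFinset_card_le _).trans (Polynomial.card_nthRoots _ _)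
      have h2 : m * B'.card < m * B'.card := by
        calc m * B'.card = ∑ β ∈ Polynomial.nthRootsFinset m (1 : ℂ),
            m * (B'.filter fun x => val x i = β).card := by
              rw [← Finset.mul_sum, ← h1]
          _ < ∑ _β ∈ Polynomial.nthRootsFinset m (1 : ℂ), B'.card :=
            Finset.sum_lt_sum_of_nonempty ⟨1, h1'⟩ fun β hβ => hcon β hβ
          _ = (Polynomial.nthRootsFinset m (1 : ℂ)).card * B'.card := by
            rw [Finset.sum_const, smul_eq_mul]
          _ ≤ m * B'.card := Nat.mul_le_mul_right _ hcard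
      exact lt_irrefl _ h2
    obtain ⟨β, hβ, hβc⟩ := hpig
    have hβ0 : β ≠ 0 := by
      rw [Polynomial.mem_nthRootsFinset (by omega)] at hβ
      rintro rfl
      rw [zero_pow (by omega)] at hβ
      exact zero_ne_one hβ
    refine ⟨Function.update α i β, ?_, ?_⟩
    · intro j
      by_cases hj : j = i
      · subst hj
        rwa [Function.update_self]
      · rw [Function.update_of_ne hj]
        exact hα j
    · have e : (B.filter fun x => ∀ j ∈ insert i S, val x j ≠ Function.update α i β j) =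
          B'.filter fun x => ¬ val x i = β := by
        ext x
        simp only [hB', Finset.mem_filter, Finset.forall_mem_insert, Function.update_self,
          and_assoc]
        refine and_congr_right fun _ => ?_
        rw [and_comm]
        refine and_congr_left fun _ => ?_
        refine forall₂_congr fun j hj => ?_
        rw [Function.update_of_ne]
        rintro rfl
        exact hi hj
      rw [e, Finset.card_insert_of_notMem hi]
      have h3 := Finset.card_filter_add_card_filter_not (s := B') (fun x => val x i = β)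
      have h4 : m * (B'.filter fun x => ¬ val x i = β).card ≤ (m - 1) * B'.card := by
        have e1 : (m - 1) * B'.card + B'.card = m * B'.card := by
          rw [← Nat.succ_mul]
          congr 1
          omega
        have e2 : m * B'.card = m * (B'.filter fun x => val x i = β).card +
            m * (B'.filter fun x => ¬ val x i = β).card := by
          rw [← Nat.mul_add, h3]
        omega
      calc (B'.filter fun x => ¬ val x i = β).card * m ^ (S.card + 1)
          = (m * (B'.filter fun x => ¬ val x i = β).card) * m ^ S.card := by ring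
        _ ≤ ((m - 1) * B'.card) * m ^ S.card := Nat.mul_le_mul_right _ h4
        _ = (m - 1) * (B'.card * m ^ S.card) := by ring
        _ ≤ (m - 1) * (B.card * (m - 1) ^ S.card) := Nat.mul_le_mul_left _ hle
        _ = B.card * (m - 1) ^ (S.card + 1) := by ring

theorem char_sum {A Λ : Type} [AddCommGroup A] (ψ : AddChar A ℂ) (T : Finset Λ) (g : Λ → A) :
    ψ (∑ i ∈ T, g i) = ∏ i ∈ T, ψ (g i) := by
  induction T using Finset.induction_on with
  | empty => simp
  | insert i T hi ih => rw [Finset.sum_insert hi, Finset.prod_insert hi, AddChar.map_add_eq_mul, ih]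

/-- A long sequence in a finite abelian group has a nonempty subsequence with sum zero (the bound of
van Emde Boas and Kruyswijk, in a slightly weaker form). -/
theorem zero_sum {A Λ : Type} [AddCommGroup A] [Fintype A] [Fintype Λ] (m c : ℕ) (hm : 1 ≤ m)
    (hexp : ∀ a : A, m • a = 0) (hc : Fintype.card A < 2 ^ c) (hL : m * c ≤ Fintype.card Λ)
    (g : Λ → A) : ∃ U : Finset Λ, U.Nonempty ∧ ∑ i ∈ U, g i = 0 := by
  by_contra hcon
  push Not at hcon
  obtain ⟨α, hα0, hα⟩ := greedy (Λ := Λ) (X := AddChar A ℂ) m hm (fun ψ i => ψ (g i))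
    (fun ψ i => by rw [← AddChar.map_nsmul_eq_pow, hexp, AddChar.map_zero_eq_one]) univ univ
  have hkill : (univ.filter fun ψ : AddChar A ℂ => ∀ i ∈ (univ : Finset Λ), ψ (g i) ≠ α i) = ∅ := by
    rw [← Finset.card_eq_zero]
    by_contra hne
    have hpos : 1 ≤ (univ.filter fun ψ : AddChar A ℂ =>
      ∀ i ∈ (univ : Finset Λ), ψ (g i) ≠ α i).card := by omega
    have h1 : (m - 1) ^ (Fintype.card Λ) * 2 ^ c ≤ m ^ (Fintype.card Λ) := by
      obtain ⟨d, hd⟩ := Nat.exists_eq_add_of_le hL
      rw [hd, pow_add, pow_add]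
      have h2 : ((m - 1) ^ m * 2) ^ c ≤ (m ^ m) ^ c := Nat.pow_le_pow_left (two_mul_pow_le m hm) c
      rw [mul_pow, ← pow_mul, ← pow_mul] at h2
      calc (m - 1) ^ (m * c) * (m - 1) ^ d * 2 ^ c = ((m - 1) ^ (m * c) * 2 ^ c) * (m - 1) ^ d := by
            ring
        _ ≤ m ^ (m * c) * m ^ d := Nat.mul_le_mul h2 (Nat.pow_le_pow_left (by omega) _)
    rw [Finset.card_univ, Finset.card_univ, AddChar.card_eq] at hα
    have h5 : m ^ Fintype.card Λ * 2 ^ c ≤ Fintype.card A * m ^ Fintype.card Λ := by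
      calc m ^ Fintype.card Λ * 2 ^ c = 1 * m ^ Fintype.card Λ * 2 ^ c := by ring
        _ ≤ _ * m ^ Fintype.card Λ * 2 ^ c :=
            Nat.mul_le_mul_right _ (Nat.mul_le_mul_right _ hpos)
        _ ≤ Fintype.card A * (m - 1) ^ Fintype.card Λ * 2 ^ c := by
            apply Nat.mul_le_mul_right
            convert hα
        _ = Fintype.card A * ((m - 1) ^ Fintype.card Λ * 2 ^ c) := by ring
        _ ≤ Fintype.card A * m ^ Fintype.card Λ := Nat.mul_le_mul_left _ h1
    have h6 : 0 < m ^ Fintype.card Λ := by positivity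
    have h7 : 2 ^ c ≤ Fintype.card A := by
      rw [mul_comm] at h5
      exact Nat.le_of_mul_le_mul_right h5 h6
    omega
  have hzero : ∑ ψ : AddChar A ℂ, ∏ i : Λ, (α i + -(ψ (g i))) = 0 := by
    apply Finset.sum_eq_zero
    intro ψ _
    have hψ : ψ ∉ (univ.filter fun ψ : AddChar A ℂ => ∀ i ∈ (univ : Finset Λ), ψ (g i) ≠ α i) := by
      rw [hkill]
      exact Finset.notMem_empty _
    rw [Finset.mem_filter] at hψ
    push Not at hψ
    obtain ⟨i, hi, he⟩ := hψ (Finset.mem_univ _)
    apply Finset.prod_eq_zero hi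
    rw [he]
    ring
  have hexpand : ∑ ψ : AddChar A ℂ, ∏ i : Λ, (α i + -(ψ (g i))) =
      ∑ T ∈ (univ : Finset Λ).powerset, (∏ i ∈ T, α i) * (-1) ^ (univ \ T).card *
        ∑ ψ : AddChar A ℂ, ψ (∑ i ∈ univ \ T, g i) := by
    simp_rw [Finset.prod_add]
    rw [Finset.sum_comm]
    refine Finset.sum_congr rfl fun T _ => ?_
    rw [Finset.mul_sum]
    refine Finset.sum_congr rfl fun ψ _ => ?_
    rw [Finset.prod_neg, char_sum]
    ring
  rw [hzero] at hexpand
  rw [Finset.sum_eq_single univ] at hexpand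
  · rw [Finset.sdiff_self, Finset.card_empty, pow_zero, Finset.sum_empty,
      AddChar.sum_apply_eq_ite, if_pos rfl] at hexpand
    have h1 : ∏ i : Λ, α i ≠ 0 := Finset.prod_ne_zero_iff.2 fun i _ => hα0 i
    have h2 : (Fintype.card A : ℂ) ≠ 0 := Nat.cast_ne_zero.2 Fintype.card_ne_zero
    rw [mul_one] at hexpand
    exact mul_ne_zero h1 h2 hexpand.symm
  · intro T _ hT
    have hne : (univ \ T).Nonempty := by
      rw [Finset.sdiff_nonempty]
      intro h
      exact hT (Finset.univ_subset_iff.1 h)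
    rw [AddChar.sum_apply_eq_ite, if_neg (hcon _ hne), mul_zero]
  · intro h
    exact absurd (Finset.mem_powerset_self _) h

/-- Along the family, a sum of labels of edges is an affine function of the variables of the
family. -/
theorem rep_group {A Λ E : Type} [AddCommGroup A] [Fintype Λ] [Fintype E] {n : ℕ}
    (G : (Λ → Set E) → SimpleGraph (Fin n))
    (hG : ∀ a b : Fin n, (∃ t : Prop, ∀ y, (G y).Adj a b ↔ t) ∨
      (∃ i e, ∀ y, (G y).Adj a b ↔ e ∈ y i))
    (a : Sym2 (Fin n) → A) :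
    ∃ (a₀ : A) (c : Λ × E → A), ∀ y, ∑ e : Sym2 (Fin n), (if e ∈ (G y).edgeSet then a e else 0) =
      a₀ + ∑ x : Λ × E, if x.2 ∈ y x.1 then c x else 0 := by
  have hG' : ∀ e : Sym2 (Fin n), (∃ t : Prop, ∀ y, e ∈ (G y).edgeSet ↔ t) ∨
      (∃ x : Λ × E, ∀ y, e ∈ (G y).edgeSet ↔ x.2 ∈ y x.1) := by
    intro e
    induction e using Sym2.ind with
    | _ u v =>
      rcases hG u v with ⟨t, ht⟩ | ⟨i, e', he⟩
      · exact Or.inl ⟨t, fun y => by rw [SimpleGraph.mem_edgeSet, ht y]⟩
      · exact Or.inr ⟨(i, e'), fun y => by rw [SimpleGraph.mem_edgeSet, he y]⟩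
  have hone : ∀ e : Sym2 (Fin n), ∃ (a₀ : A) (c : Λ × E → A), ∀ y,
      (if e ∈ (G y).edgeSet then a e else 0) = a₀ + ∑ x : Λ × E, if x.2 ∈ y x.1 then c x else 0 := by
    intro e
    rcases hG' e with ⟨t, ht⟩ | ⟨x, hx⟩
    · refine ⟨if t then a e else 0, fun _ => 0, fun y => ?_⟩
      simp only [ht y, ite_self, Finset.sum_const_zero, add_zero]
    · refine ⟨0, fun x' => if x' = x then a e else 0, fun y => ?_⟩
      rw [zero_add, Finset.sum_eq_single x]
      · simp only [hx y, if_true]
      · intro x' _ hne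
        simp [hne]
      · intro h
        exact absurd (Finset.mem_univ _) h
  choose a₀ c hc using hone
  refine ⟨∑ e, a₀ e, fun x => ∑ e, c e x, fun y => ?_⟩
  rw [Finset.sum_congr rfl fun e _ => hc e y, Finset.sum_add_distrib, Finset.sum_comm]
  congr 1
  refine Finset.sum_congr rfl fun x _ => ?_
  split_ifs
  · rfl
  · exact Finset.sum_const_zero

/-- The main step: sums of labels in a group of small exponent are useless as advice. -/
theorem core_group {A : Type} [AddCommGroup A] [Fintype A] (n k p r s m c : ℕ) (hr : 2 ≤ r)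
    (hk : 2 * GG r ≤ k)
    (hn : 2 * (p * (GG r * (2 * r))) + (k - 2 * GG r) ≤ n) (hs : s ≤ 2 ^ r)
    (hm : 1 ≤ m) (hexp : ∀ a : A, m • a = 0) (hc : Fintype.card A < 2 ^ c)
    (a : Sym2 (Fin n) → A)
    (D : A → MonoCircuit n) (hD : ∀ v, (D v).size ≤ s)
    (hcl : ∀ G : SimpleGraph (Fin n),
      (D (∑ e : Sym2 (Fin n), if e ∈ G.edgeSet then a e else 0)).Accepts G ↔
      ∃ c : Finset (Fin n), G.IsClique (c : Set (Fin n)) ∧ k ≤ c.card) :
    p * p ≤ m * ((GG r * (2 * r)) ^ 2 * c) := by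
  by_contra hcon
  rw [not_le] at hcon
  have hg1 : 1 ≤ GG r := (two_le_GG r hr).trans' (by norm_num)
  obtain ⟨G, hGm, hGl, hGc⟩ := grid n k p (GG r) (2 * r) hg1 hk hn
  obtain ⟨a₀, f, hf⟩ := rep_group G hGl a
  have hE : Fintype.card (BE (GG r) (2 * r)) = (GG r * (2 * r)) ^ 2 := by
    simp only [Fintype.card_prod, Fintype.card_fin]
    ring
  have hEpos : 1 ≤ (GG r * (2 * r)) ^ 2 := by
    apply Nat.one_le_pow
    positivity
  obtain ⟨U, hU, hsum⟩ := zero_sum (A := BE (GG r) (2 * r) → A) (Λ := Fin p × Fin p) m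
    ((GG r * (2 * r)) ^ 2 * c) hm
    (by
      intro h
      funext e
      rw [Pi.smul_apply, hexp, Pi.zero_apply])
    (by
      rw [Fintype.card_fun, hE, mul_comm ((GG r * (2 * r)) ^ 2) c, pow_mul]
      exact Nat.pow_lt_pow_left hc (Nat.one_le_iff_ne_zero.1 hEpos))
    (by
      simp only [Fintype.card_prod, Fintype.card_fin]
      exact hcon.le)
    (fun i e => f (i, e))
  obtain ⟨i₀, hi₀⟩ := hU
  obtain ⟨Γ, hΓ⟩ : ∃ Γ : Set (BE (GG r) (2 * r)) → SimpleGraph (Fin n),
      ∀ z, Γ z = G (fun i => if i ∈ U then z else ∅) := ⟨_, fun _ => rfl⟩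
  have hv : ∀ z, (∑ e : Sym2 (Fin n), if e ∈ (Γ z).edgeSet then a e else 0) = a₀ := by
    intro z
    rw [hΓ, hf]
    have : ∑ x : (Fin p × Fin p) × BE (GG r) (2 * r),
        (if x.2 ∈ (if x.1 ∈ U then z else ∅) then f x else 0) = 0 := by
      rw [Fintype.sum_prod_type_right]
      apply Finset.sum_eq_zero
      intro e _
      by_cases he : e ∈ z
      · have h1 := congrFun hsum e
        rw [Finset.sum_apply, Pi.zero_apply] at h1
        have h2 : ∑ i : Fin p × Fin p, (if e ∈ (if i ∈ U then z else ∅) then f (i, e) else 0) =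
            ∑ i ∈ U, f (i, e) := by
          rw [← Finset.sum_subset (Finset.subset_univ U)]
          · refine Finset.sum_congr rfl fun i hi => ?_
            simp [hi, he]
          · intro i _ hi
            simp [hi]
        rw [h1] at h2
        exact h2
      · apply Finset.sum_eq_zero
        intro i _
        by_cases hi : i ∈ U
        · simp [hi, he]
        · simp [hi]
    rw [this, add_zero]
  have hleaf : ∀ a b, Leaf fun z => (Γ z).Adj a b := by
    intro a b
    rcases hGl a b with ⟨t, ht⟩ | ⟨i, e, he⟩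
    · refine Or.inr ⟨t, fun z => ?_⟩
      show (Γ z).Adj a b ↔ _
      rw [hΓ, ht]
    · by_cases hi : i ∈ U
      · refine Or.inl ⟨e, fun z => ?_⟩
        show (Γ z).Adj a b ↔ _
        rw [hΓ, he, if_pos hi]
      · refine Or.inr ⟨False, fun z => ?_⟩
        show (Γ z).Adj a b ↔ _
        rw [hΓ, he, if_neg hi]
        exact Iff.rfl
  obtain ⟨gt, hgt, hav⟩ := ((D a₀).slp Γ hleaf).mono subset_rfl (hD _)
  have hTC : ∀ z, (D a₀).Accepts (Γ z) ↔ TC z := by
    intro z
    have h1 := hcl (Γ z)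
    rw [hv z] at h1
    rw [h1, hΓ, hGc]
    constructor
    · rintro ⟨i, hi⟩
      by_cases hiU : i ∈ U
      · rwa [if_pos hiU] at hi
      · rw [if_neg hiU] at hi
        exact absurd hi (not_TC_empty hg1)
    · intro hz
      exact ⟨i₀, by rwa [if_pos hi₀]⟩
  refine hard r hr s hs gt hgt _ hav ?_ ?_
  · intro z hz
    exact ⟨_, rfl, (hTC z).2 hz⟩
  · rintro z hz o rfl ho
    exact hz ((hTC z).1 ho)

/-- The quantitative theorem. -/
theorem main_group {A : Type} [AddCommGroup A] [Fintype A] (n k s : ℕ)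
    (a : Sym2 (Fin n) → A)
    (D : A → MonoCircuit n) (hD : ∀ v, (D v).size ≤ s)
    (hcl : ∀ G : SimpleGraph (Fin n),
      (D (∑ e : Sym2 (Fin n), if e ∈ G.edgeSet then a e else 0)).Accepts G ↔
      ∃ c : Finset (Fin n), G.IsClique (c : Set (Fin n)) ∧ k ≤ c.card)
    (hk : 2000000 * (Nat.log 2 (n + s) + 1) ^ 3 ≤ k) :
    (n - k) ^ 2 ≤ 1000000000000 * AddMonoid.exponent A * (Nat.log 2 (Fintype.card A) + 1) *
      (Nat.log 2 (n + s) + 1) ^ 14 := by
  obtain ⟨l, hl⟩ : ∃ l, l = Nat.log 2 (n + s) + 1 := ⟨_, rfl⟩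
  rw [← hl] at hk ⊢
  obtain ⟨m, hm⟩ : ∃ m, m = AddMonoid.exponent A := ⟨_, rfl⟩
  obtain ⟨c, hc⟩ : ∃ c, c = Nat.log 2 (Fintype.card A) + 1 := ⟨_, rfl⟩
  rw [← hm, ← hc]
  have hm1 : 1 ≤ m := by
    rw [hm]
    exact Nat.pos_of_ne_zero AddMonoid.exponent_ne_zero_of_finite
  have hexp : ∀ a : A, m • a = 0 := by
    rw [hm]
    exact AddMonoid.exponent_nsmul_eq_zero
  have hcA : Fintype.card A < 2 ^ c := by
    rw [hc]
    exact Nat.lt_pow_succ_log_self (by norm_num) _
  have hc1 : 1 ≤ c := by omega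
  have hl1 : 1 ≤ l := by omega
  by_cases hnk : n ≤ k
  · have : n - k = 0 := by omega
    rw [this]
    simp
  rw [not_le] at hnk
  obtain ⟨r, hr⟩ : ∃ r, r = 2 * l := ⟨_, rfl⟩
  have hr2 : 2 ≤ r := by omega
  have hns : n + s < 2 ^ l := by
    rw [hl]
    exact Nat.lt_pow_succ_log_self (by norm_num) _
  have hsize : s ≤ 2 ^ r := by
    calc s ≤ 2 ^ l := by omega
      _ ≤ 2 ^ r := Nat.pow_le_pow_right (by norm_num) (by omega)
  have hLL := LL_lin r (by omega)
  have hLL2 := LL_sq r (by omega)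
  have hGk : 2 * GG r ≤ k := by
    refine le_trans ?_ hk
    rw [GG]
    calc 2 * (4 * r ^ 2 * LL r) ≤ 2 * (4 * r ^ 2 * (25 * r)) := by
          apply Nat.mul_le_mul_left
          exact Nat.mul_le_mul_left _ hLL
      _ = 1600 * l ^ 3 := by rw [hr]; ring
      _ ≤ 2000000 * l ^ 3 := Nat.mul_le_mul_right _ (by norm_num)
  obtain ⟨W, hW⟩ : ∃ W, W = 2 * (GG r * (2 * r)) := ⟨_, rfl⟩
  have hW1 : 0 < W := by
    have := two_le_GG r hr2
    rw [hW]
    positivity
  obtain ⟨p, hp⟩ : ∃ p, p = (n - k) / W := ⟨_, rfl⟩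
  have hpn : p * W ≤ n - k := by
    rw [hp]
    exact Nat.div_mul_le_self _ _
  have hfit : 2 * (p * (GG r * (2 * r))) + (k - 2 * GG r) ≤ n := by
    have : 2 * (p * (GG r * (2 * r))) = p * W := by rw [hW]; ring
    omega
  have hpR := core_group n k p r s m c hr2 hGk hfit hsize hm1 hexp hcA a D hD hcl
  have hlt : n - k < W * (p + 1) := by
    rw [hp]
    exact Nat.lt_mul_div_succ _ hW1
  obtain ⟨b, hb⟩ : ∃ b, b = (GG r * (2 * r)) ^ 2 := ⟨_, rfl⟩
  rw [← hb] at hpR
  have hb1 : 1 ≤ b := by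
    rw [hb]
    apply Nat.one_le_pow
    have := two_le_GG r hr2
    positivity
  have hWb : W ^ 2 = 4 * b := by rw [hW, hb]; ring
  have h5 : b ≤ 204800 * l ^ 7 := by
    calc b = 64 * r ^ 6 * (LL r) ^ 2 := by rw [hb, GG]; ring
      _ ≤ 64 * r ^ 6 * (25 * r) := Nat.mul_le_mul_left _ hLL2
      _ = 204800 * l ^ 7 := by rw [hr]; ring
  have h7 : (p + 1) ^ 2 ≤ 2 * (p * p + 1) := by nlinarith [sq_nonneg ((p : ℤ) - 1)]
  have h8 : 1 ≤ m * (b * c) := Nat.mul_pos hm1 (Nat.mul_pos hb1 hc1)
  calc (n - k) ^ 2 ≤ (W * (p + 1)) ^ 2 := Nat.pow_le_pow_left hlt.le 2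
    _ = W ^ 2 * (p + 1) ^ 2 := by ring
    _ ≤ W ^ 2 * (2 * (p * p + 1)) := Nat.mul_le_mul_left _ h7
    _ ≤ W ^ 2 * (2 * (m * (b * c) + m * (b * c))) := by
        apply Nat.mul_le_mul_left
        apply Nat.mul_le_mul_left
        exact Nat.add_le_add hpR h8
    _ = 16 * m * c * b ^ 2 := by rw [hWb]; ring
    _ ≤ 16 * m * c * (204800 * l ^ 7) ^ 2 := by
        apply Nat.mul_le_mul_left
        exact Nat.pow_le_pow_left h5 2
    _ = 671088640000 * m * c * l ^ 14 := by ring
    _ ≤ 1000000000000 * m * c * l ^ 14 := by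
        apply Nat.mul_le_mul_right
        apply Nat.mul_le_mul_right
        exact Nat.mul_le_mul_right _ (by norm_num)

end Pool.Agent.T9h35
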