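import Pool.Agent.T9h35.Advice

set_option autoImplicit false

namespace Pool.Agent.T9h35

open Finset Pool.Agent.T9h16
open scoped Classical

/-- Few indices cover a family of inputs each of which is covered by more than half of the
indices. -/
theorem halving {X κ : Type} (R : X → κ → Prop) (U : Finset κ) (c : ℕ) :
    ∀ Z : Finset X, Z.card < 2 ^ c → (∀ z ∈ Z, U.card < 2 * (U.filter fun u => R z u).card) →
      ∃ T : Finset κ, T ⊆ U ∧ T.card ≤ c ∧ ∀ z ∈ Z, ∃ u ∈ T, R z u := by
  induction c with
  | zero =>
    intro Z hZ _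
    rw [pow_zero, Nat.lt_one_iff, Finset.card_eq_zero] at hZ
    subst hZ
    exact ⟨∅, Finset.empty_subset _, le_rfl, fun z hz => absurd hz (Finset.notMem_empty z)⟩
  | succ c ih =>
    intro Z hZ hhalf
    by_cases hZe : Z = ∅
    · subst hZe
      exact ⟨∅, Finset.empty_subset _, Nat.zero_le _, fun z hz => absurd hz (Finset.notMem_empty z)⟩
    have hZne : Z.Nonempty := Finset.nonempty_iff_ne_empty.2 hZe
    obtain ⟨u, hu, hcov⟩ : ∃ u ∈ U, Z.card ≤ 2 * (Z.filter fun z => R z u).card := by
      by_contra hcon
      push Not at hcon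
      have h1 : ∑ z ∈ Z, U.card < ∑ z ∈ Z, 2 * (U.filter fun u => R z u).card :=
        Finset.sum_lt_sum_of_nonempty hZne hhalf
      have h2 : ∑ z ∈ Z, 2 * (U.filter fun u => R z u).card =
          ∑ u ∈ U, 2 * (Z.filter fun z => R z u).card := by
        rw [← Finset.mul_sum, ← Finset.mul_sum]
        congr 1
        simp only [Finset.card_filter]
        exact Finset.sum_comm
      have h3 : ∑ u ∈ U, 2 * (Z.filter fun z => R z u).card ≤ ∑ u ∈ U, Z.card :=
        Finset.sum_le_sum fun u hu => (hcon u hu).le
      rw [h2] at h1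
      have h4 := h1.trans_le h3
      rw [Finset.sum_const, Finset.sum_const, smul_eq_mul, smul_eq_mul, mul_comm] at h4
      exact lt_irrefl _ h4
    obtain ⟨T, hTU, hTc, hT⟩ := ih (Z.filter fun z => ¬ R z u)
      (by
        have h5 := Finset.card_filter_add_card_filter_not (s := Z) (fun z => R z u)
        rw [pow_succ] at hZ
        omega)
      (fun z hz => hhalf z (Finset.mem_filter.1 hz).1)
    refine ⟨insert u T, ?_, (Finset.card_insert_le _ _).trans (by omega), fun z hz => ?_⟩
    · intro v hv
      rcases Finset.mem_insert.1 hv with rfl | hv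
      · exact hu
      · exact hTU hv
    · by_cases hzu : R z u
      · exact ⟨u, Finset.mem_insert_self _ _, hzu⟩
      · obtain ⟨v, hv, hzv⟩ := hT z (Finset.mem_filter.2 ⟨hz, hzu⟩)
        exact ⟨v, Finset.mem_insert_of_mem hv, hzv⟩

/-- Along the blocks the set of the remaining indices cannot be halved each time. -/
theorem stuck {ι X κ : Type} [Fintype ι] [DecidableEq ι] (h : (ι → X) → Finset κ) (P : X → Prop) (e : X)
    (hP : P e) (hne : ∀ y, (∀ i, P (y i)) → (h y).Nonempty)
    (hcard : (h fun _ => e).card < 2 ^ Fintype.card ι) :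
    ∃ (y : ι → X) (i : ι), (∀ j, P (y j)) ∧ y i = e ∧
      ∀ z, P z → (h y).card < 2 * (h (Function.update y i z)).card := by
  by_contra hcon
  push Not at hcon
  have key : ∀ m ≤ Fintype.card ι, ∃ (J : Finset ι) (y : ι → X), J.card = m ∧
      (∀ j ∉ J, y j = e) ∧ (∀ j, P (y j)) ∧ (h y).card * 2 ^ m ≤ (h fun _ => e).card := by
    intro m
    induction m with
    | zero =>
      intro _
      exact ⟨∅, fun _ => e, rfl, fun _ _ => rfl, fun _ => hP, by simp⟩
    | succ m ih =>
      intro hm
      obtain ⟨J, y, hJ, hye, hyP, hle⟩ := ih (by omega)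
      obtain ⟨i, hi⟩ : ∃ i, i ∉ J := by
        by_contra hall
        push Not at hall
        have : J = Finset.univ := Finset.eq_univ_iff_forall.2 hall
        rw [this, Finset.card_univ] at hJ
        omega
      obtain ⟨z, hz, hcz⟩ := hcon y i hyP (hye i hi)
      refine ⟨insert i J, Function.update y i z, ?_, ?_, ?_, ?_⟩
      · rw [Finset.card_insert_of_notMem hi, hJ]
      · intro j hj
        rw [Finset.mem_insert, not_or] at hj
        rw [Function.update_of_ne hj.1]
        exact hye j hj.2
      · intro j
        by_cases hji : j = i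
        · subst hji
          rwa [Function.update_self]
        · rw [Function.update_of_ne hji]
          exact hyP j
      · calc (h (Function.update y i z)).card * 2 ^ (m + 1)
            = 2 * (h (Function.update y i z)).card * 2 ^ m := by ring
          _ ≤ (h y).card * 2 ^ m := Nat.mul_le_mul_right _ hcz
          _ ≤ _ := hle
  obtain ⟨J, y, -, -, hyP, hle⟩ := key _ le_rfl
  have h1 : 1 ≤ (h y).card := Finset.card_pos.2 (hne y hyP)
  have h2 : 1 * 2 ^ Fintype.card ι ≤ (h y).card * 2 ^ Fintype.card ι := Nat.mul_le_mul_right _ h1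
  omega

theorem card_set {E : Type} [Fintype E] (m : ℕ) (hm : Fintype.card E < m) :
    (univ : Finset (Set E)).card < 2 ^ m := by
  rw [Finset.card_univ, Fintype.card_set]
  exact Nat.pow_lt_pow_right (by norm_num) hm

end Pool.Agent.T9h35
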