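import Pool.Agent.T9h35.Poly

set_option autoImplicit false

/-!
# Low-degree polynomials do not help monotone circuits for the clique function

Let `F` be a finite field with `q` elements and let `P_1, ..., P_t` be polynomials over `F` in the
edge variables.  On input `G` the values `P_1 (G), ..., P_t (G)` are given for free, and depending on
them, in an arbitrary way, one of `q ^ t` monotone circuits of polynomial size is chosen which has to
decide the clique problem for `G`.

If `F` is the field with two elements and the polynomials have degree 1, these are `t` arbitrary
parities of the edge variables, used in a completely arbitrary way.  For `t = N = n (n - 1) / 2` they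
determine the graph.  The theorem says that for polynomial size one needs
`t ≥ n ^ 2 / polylog n` (if, for instance, `k = n / 2`), and more generally
`t ≥ n ^ 2 / (q * (log n) ^ ((7 + o(1)) (d + 1)))` for polynomials of degree `d`, so that
`n ^ (2 - ε)` polynomials of degree up to `δ log n / log log n` are useless.  Without polynomials this
is Razborov's theorem.

For composite moduli nothing like this holds: over the fields with `p` elements, `p` running over the
first `O (log n / log log n)` primes, the numbers of edges modulo `p` determine the number of edges,
and on graphs with a fixed number of edges monotone circuits are as powerful as general ones.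

Method: the clique problem contains the disjunction of `n ^ 2 / polylog n` disjoint copies of a
block function whose monotone complexity is superpolynomial in `n` (library
`Pool.Agent.T9h16`).  By the theorem of Chevalley and Warning there is a nonempty set of copies such
that, if the same input is written in all of these copies, the polynomials do not depend on it.
-/

namespace Pool.Agent.T9h35.LowDegreeAdvice

open Pool.Agent.T9h35
open scoped Classical

/-- There is a constant `K` such that the following holds for every finite field `F`, all
`n, k, t, s`, all polynomials `P_1, ..., P_t` over `F` in the edge variables of graphs with `n`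
vertices and all monotone circuits `D v`, for `v` in `F ^ t`, with at most `s` gates.  If for every
graph `G` the circuit `D v` for `v = (P_1 (G), ..., P_t (G))` decides whether `G` has a clique with at
least `k` vertices, and if `k ≥ K (log (n + s) + 1) ^ 3`, then with
`M = K (log (n + s) + 1) ^ 7` one has `(n - k) ^ 2 ≤ M + |F| * ∑ i, deg P_i * M ^ (deg P_i + 1)`. -/
theorem result :
    ∃ K : ℕ, ∀ (F : Type) [Field F] [Fintype F] (n k t s : ℕ)
      (P : Fin t → MvPolynomial (Sym2 (Fin n)) F) (D : (Fin t → F) → MonoCircuit n),
      (∀ v, (D v).size ≤ s) →
      (∀ G : SimpleGraph (Fin n),
        (D fun i => MvPolynomial.eval (fun e => if e ∈ G.edgeSet then (1 : F) else 0)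
          (P i)).Accepts G ↔
          ∃ c : Finset (Fin n), G.IsClique (c : Set (Fin n)) ∧ k ≤ c.card) →
      K * (Nat.log 2 (n + s) + 1) ^ 3 ≤ k →
      (n - k) ^ 2 ≤ K * (Nat.log 2 (n + s) + 1) ^ 7 + Fintype.card F *
        ∑ i, (P i).totalDegree *
          (K * (Nat.log 2 (n + s) + 1) ^ 7) ^ ((P i).totalDegree + 1) :=
  ⟨2000000, fun _ _ _ n k t s P D hD hcl hk => main_poly n k t s P D hD hcl hk⟩

end Pool.Agent.T9h35.LowDegreeAdvice
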