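import Pool.Agent.T9h35.Halving
import Pool.Agent.T9h35.Join

set_option autoImplicit false

namespace Pool.Agent.T9h35

open Finset Pool.Agent.T9h16
open scoped Classical

theorem slp_family {E κ : Type} {n s : ℕ} (Γ : Set E → SimpleGraph (Fin n))
    (hΓ : ∀ i j, Leaf fun z => (Γ z).Adj i j) (D : κ → MonoCircuit n) (hD : ∀ u, (D u).size ≤ s)
    (T : Finset κ) : SLPFor {o | ∃ u ∈ T, o = fun z => (D u).Accepts (Γ z)} (T.card * s) := by
  induction T using Finset.induction_on with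
  | empty =>
    refine SLPFor.empty.mono ?_ (Nat.zero_le _)
    rintro o ⟨u, hu, -⟩
    exact absurd hu (Finset.notMem_empty _)
  | insert u T hu ih =>
    refine (ih.union (((D u).slp Γ hΓ).mono subset_rfl (hD u))).mono ?_ ?_
    · rintro o ⟨v, hv, rfl⟩
      rcases Finset.mem_insert.1 hv with rfl | hv
      · exact Or.inr rfl
      · exact Or.inl ⟨v, hv, rfl⟩
    · rw [Finset.card_insert_of_notMem hu, Nat.succ_mul]

/-- The main step for disjunctions of monotone circuits. -/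
theorem core_or {κ : Type} [Fintype κ] (n k M r s : ℕ) (hr : 2 ≤ r) (hM : 1 ≤ M)
    (hk : 2 * (M * GG r) ≤ k)
    (hn : 2 * (M * GG r * (2 * r)) + (k - 2 * (M * GG r)) ≤ n)
    (hs : ((GG r * (2 * r)) ^ 2 + 1) * s ≤ 2 ^ r)
    (D : κ → MonoCircuit n) (hD : ∀ u, (D u).size ≤ s)
    (hcl : ∀ G : SimpleGraph (Fin n), (∃ u, (D u).Accepts G) ↔
      ∃ c : Finset (Fin n), G.IsClique (c : Set (Fin n)) ∧ k ≤ c.card) :
    2 ^ M ≤ Fintype.card κ := by
  by_contra hcon
  rw [not_le] at hcon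
  have hg1 : 1 ≤ GG r := (two_le_GG r hr).trans' (by norm_num)
  obtain ⟨G, hGm, hGl, hGc⟩ := join_embed n k M (GG r) (2 * r) hk (Nat.mul_pos hM hg1) hn
  have hTCu : TC (Set.univ : Set (BE (GG r) (2 * r))) :=
    ⟨fun _ => ⟨0, by omega⟩, fun _ => ⟨0, by omega⟩, fun _ _ => Set.mem_univ _⟩
  obtain ⟨y, i, hyP, hyi, hst⟩ := stuck (ι := Fin M) (κ := κ)
    (fun y => univ.filter fun u => (D u).Accepts (G y)) TC Set.univ
    hTCu
    (by
      intro y hy
      obtain ⟨u, hu⟩ := (hcl (G y)).2 ((hGc y).2 hy)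
      exact ⟨u, Finset.mem_filter.2 ⟨Finset.mem_univ _, hu⟩⟩)
    (by
      refine lt_of_le_of_lt (Finset.card_le_univ _) ?_
      rwa [Fintype.card_fin])
  obtain ⟨Γ, hΓ⟩ : ∃ Γ : Set (BE (GG r) (2 * r)) → SimpleGraph (Fin n),
      ∀ z, Γ z = G (Function.update y i z) := ⟨_, fun _ => rfl⟩
  have hleaf : ∀ a b, Leaf fun z => (Γ z).Adj a b := by
    intro a b
    rcases hGl a b with ⟨t, ht⟩ | ⟨i', e, he⟩
    · refine Or.inr ⟨t, fun z => ?_⟩
      show (Γ z).Adj a b ↔ _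
      rw [hΓ, ht]
    · by_cases hii : i' = i
      · refine Or.inl ⟨e, fun z => ?_⟩
        show (Γ z).Adj a b ↔ _
        rw [hΓ, he, hii, Function.update_self]
      · refine Or.inr ⟨e ∈ y i', fun z => ?_⟩
        show (Γ z).Adj a b ↔ _
        rw [hΓ, he, Function.update_of_ne hii]
  have hE : Fintype.card (BE (GG r) (2 * r)) = (GG r * (2 * r)) ^ 2 := by
    simp only [Fintype.card_prod, Fintype.card_fin]
    ring
  obtain ⟨T, -, hTc, hT⟩ := halving (fun z u => (D u).Accepts (Γ z))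
    (univ.filter fun u => (D u).Accepts (G y)) ((GG r * (2 * r)) ^ 2 + 1)
    (univ.filter fun z : Set (BE (GG r) (2 * r)) => TC z)
    (lt_of_le_of_lt (Finset.card_le_card (Finset.filter_subset _ _))
      (card_set _ (by rw [hE]; exact Nat.lt_succ_self _)))
    (by
      intro z hz
      rw [Finset.mem_filter] at hz
      have h1 := hst z hz.2
      refine lt_of_lt_of_le h1 ?_
      apply Nat.mul_le_mul_left
      apply Finset.card_le_card
      intro u hu
      rw [Finset.mem_filter] at hu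
      rw [Finset.mem_filter, Finset.mem_filter, hΓ]
      refine ⟨⟨Finset.mem_univ _, (D u).mono (hGm _ _ ?_) hu.2⟩, hu.2⟩
      intro j
      by_cases hji : j = i
      · subst hji
        rw [hyi]
        exact Set.subset_univ _
      · rw [Function.update_of_ne hji])
  obtain ⟨gt, hgt, hav⟩ := (slp_family Γ hleaf D hD T).mono subset_rfl
    (Nat.mul_le_mul_right s hTc)
  refine hard r hr _ hs gt hgt _ hav ?_ ?_
  · intro z hz
    obtain ⟨u, hu, hzu⟩ := hT z (Finset.mem_filter.2 ⟨Finset.mem_univ _, hz⟩)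
    exact ⟨_, ⟨u, hu, rfl⟩, hzu⟩
  · rintro z hz o ⟨u, -, rfl⟩ ho
    apply hz
    have h1 := (hGc (Function.update y i z)).1 ((hcl _).1 ⟨u, by rw [← hΓ]; exact ho⟩) i
    rwa [Function.update_self] at h1

theorem pow_bound (l : ℕ) (hl : 1 ≤ l) : 1600 * (64 * l) ^ 7 + 1 ≤ 2 ^ (63 * l) := by
  have h1 : l ≤ 2 ^ (l - 1) := by
    have := Nat.lt_two_pow_self (n := l - 1)
    omega
  have h2 : l ^ 7 ≤ 2 ^ (7 * (l - 1)) := by
    calc l ^ 7 ≤ (2 ^ (l - 1)) ^ 7 := Nat.pow_le_pow_left h1 7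
      _ = 2 ^ (7 * (l - 1)) := by rw [← pow_mul, mul_comm]
  have h3 : 1 ≤ 2 ^ (7 * (l - 1)) := Nat.one_le_two_pow
  calc 1600 * (64 * l) ^ 7 + 1 = 7036874417766400 * l ^ 7 + 1 := by ring
    _ ≤ 7036874417766400 * 2 ^ (7 * (l - 1)) + 2 ^ (7 * (l - 1)) := by
        exact Nat.add_le_add (Nat.mul_le_mul_left _ h2) h3
    _ = 7036874417766401 * 2 ^ (7 * (l - 1)) := by ring
    _ ≤ 2 ^ 53 * 2 ^ (7 * (l - 1)) := Nat.mul_le_mul_right _ (by norm_num)
    _ = 2 ^ (53 + 7 * (l - 1)) := by rw [← pow_add]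
    _ ≤ 2 ^ (63 * l) := Nat.pow_le_pow_right (by norm_num) (by omega)

/-- The size condition for `r = 64 l`. -/
theorem size_bound (l s : ℕ) (hl : 1 ≤ l) (hs : s ≤ 2 ^ l) :
    ((GG (64 * l) * (2 * (64 * l))) ^ 2 + 1) * s ≤ 2 ^ (64 * l) := by
  have hLL2 := LL_sq (64 * l) (by omega)
  have h1 : (GG (64 * l) * (2 * (64 * l))) ^ 2 ≤ 1600 * (64 * l) ^ 7 := by
    calc (GG (64 * l) * (2 * (64 * l))) ^ 2 = 64 * (64 * l) ^ 6 * (LL (64 * l)) ^ 2 := by
          rw [GG]; ring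
      _ ≤ 64 * (64 * l) ^ 6 * (25 * (64 * l)) := Nat.mul_le_mul_left _ hLL2
      _ = 1600 * (64 * l) ^ 7 := by ring
  calc ((GG (64 * l) * (2 * (64 * l))) ^ 2 + 1) * s ≤ (1600 * (64 * l) ^ 7 + 1) * 2 ^ l :=
        Nat.mul_le_mul (Nat.succ_le_succ h1) hs
    _ ≤ 2 ^ (63 * l) * 2 ^ l := Nat.mul_le_mul_right _ (pow_bound l hl)
    _ = 2 ^ (64 * l) := by rw [← pow_add]; congr 1; ring

/-- The quantitative theorem for disjunctions of monotone circuits. -/
theorem main_or {κ : Type} [Fintype κ] (n k s : ℕ) (D : κ → MonoCircuit n)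
    (hD : ∀ u, (D u).size ≤ s)
    (hcl : ∀ G : SimpleGraph (Fin n), (∃ u, (D u).Accepts G) ↔
      ∃ c : Finset (Fin n), G.IsClique (c : Set (Fin n)) ∧ k ≤ c.card) :
    min k (n - k) ≤ 7000000000 * (Nat.log 2 (Fintype.card κ) + 1) *
      (Nat.log 2 (n + s) + 1) ^ 4 := by
  obtain ⟨l, hl⟩ : ∃ l, l = Nat.log 2 (n + s) + 1 := ⟨_, rfl⟩
  rw [← hl]
  have hl1 : 1 ≤ l := by omega
  have hns : n + s < 2 ^ l := by
    rw [hl]
    exact Nat.lt_pow_succ_log_self (by norm_num) _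
  have hsize := size_bound l s hl1 (by omega)
  obtain ⟨r, hr⟩ : ∃ r, r = 64 * l := ⟨_, rfl⟩
  rw [← hr] at hsize
  have hr2 : 2 ≤ r := by omega
  obtain ⟨W, hW⟩ : ∃ W, W = 2 * (GG r * (2 * r)) := ⟨_, rfl⟩
  have hg := two_le_GG r hr2
  have hW1 : 0 < W := by
    rw [hW]
    positivity
  obtain ⟨M, hM⟩ : ∃ M, M = min k (n - k) / W := ⟨_, rfl⟩
  have hMW : M * W ≤ min k (n - k) := by
    rw [hM]
    exact Nat.div_mul_le_self _ _
  have hlt : min k (n - k) < W * (M + 1) := by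
    rw [hM]
    exact Nat.lt_mul_div_succ _ hW1
  have hMle : M ≤ Nat.log 2 (Fintype.card κ) := by
    rcases Nat.eq_zero_or_pos M with h0 | hM1
    · omega
    have h1 : 2 * (M * GG r) ≤ M * W := by
      rw [hW]
      calc 2 * (M * GG r) = M * (2 * (GG r * 1)) := by ring
        _ ≤ M * (2 * (GG r * (2 * r))) := by
            apply Nat.mul_le_mul_left
            apply Nat.mul_le_mul_left
            apply Nat.mul_le_mul_left
            omega
    have h2 : 2 * (M * GG r * (2 * r)) = M * W := by rw [hW]; ring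
    have h3 : min k (n - k) ≤ k := min_le_left _ _
    have h4 : min k (n - k) ≤ n - k := min_le_right _ _
    have h5 : 0 < M * W := Nat.mul_pos hM1 hW1
    have h6 := core_or n k M r s hr2 hM1 (by omega) (by omega) hsize D hD hcl
    exact Nat.le_log_of_pow_le (by norm_num) h6
  have hLL := LL_lin r (by omega)
  have h7 : W ≤ 6710886400 * l ^ 4 := by
    calc W = 16 * r ^ 3 * LL r := by rw [hW, GG]; ring
      _ ≤ 16 * r ^ 3 * (25 * r) := Nat.mul_le_mul_left _ hLL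
      _ = 6710886400 * l ^ 4 := by rw [hr]; ring
  calc min k (n - k) ≤ W * (M + 1) := hlt.le
    _ ≤ (7000000000 * l ^ 4) * (Nat.log 2 (Fintype.card κ) + 1) :=
        Nat.mul_le_mul (h7.trans (Nat.mul_le_mul_right _ (by norm_num))) (by omega)
    _ = 7000000000 * (Nat.log 2 (Fintype.card κ) + 1) * l ^ 4 := by ring

theorem SLPFor.and {E : Type} {O : Set (Set E → Prop)} {s : ℕ} (h : SLPFor O s)
    {f g : Set E → Prop} (hf : f ∈ O) (hg : g ∈ O) :
    SLPFor {fun z => f z ∧ g z} (s + 1) := by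
  obtain ⟨gt, h1, h2⟩ := h
  have key : ∀ i ≤ s, ∀ p, Avail gt i p →
      Avail (fun i => if i < s then gt i else fun z => f z ∧ g z) i p := by
    intro i hi p hp
    rcases hp with hp | ⟨j, hj, hp⟩
    · exact Or.inl hp
    · refine Or.inr ⟨j, hj, ?_⟩
      simp only [lt_of_lt_of_le hj hi, if_true]
      exact hp
  refine ⟨fun i => if i < s then gt i else fun z => f z ∧ g z, ?_, ?_⟩
  · intro i hi
    by_cases his : i < s
    · simp only [his, if_true]
      rcases h1 i his with hl | ⟨p, q, hp, hq, hpq⟩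
      · exact Or.inl hl
      · exact Or.inr ⟨p, q, key i his.le p hp, key i his.le q hq, hpq⟩
    · have his' : i = s := by omega
      subst his'
      refine Or.inr ⟨f, g, key _ le_rfl f (h2 f hf), key _ le_rfl g (h2 g hg), Or.inl fun z => ?_⟩
      simp
  · rintro o rfl
    refine Or.inr ⟨s, Nat.lt_succ_self _, fun z => ?_⟩
    simp

theorem slp_all {E κ : Type} {n s : ℕ} (Γ : Set E → SimpleGraph (Fin n))
    (hΓ : ∀ i j, Leaf fun z => (Γ z).Adj i j) (D : κ → MonoCircuit n) (hD : ∀ u, (D u).size ≤ s)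
    (T : Finset κ) :
    SLPFor {fun z => ∀ u ∈ T, (D u).Accepts (Γ z)} (T.card * (s + 1)) := by
  induction T using Finset.induction_on with
  | empty =>
    refine ⟨fun _ _ => True, fun i hi => absurd hi (by simp), ?_⟩
    rintro o rfl
    exact Or.inl (Or.inr ⟨True, fun z => by simp⟩)
  | insert u T hu ih =>
    have h1 := (ih.union (((D u).slp Γ hΓ).mono subset_rfl (hD u))).and
      (f := fun z => ∀ u ∈ T, (D u).Accepts (Γ z)) (g := fun z => (D u).Accepts (Γ z))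
      (Or.inl rfl) (Or.inr rfl)
    refine h1.mono ?_ ?_
    · rintro o rfl
      show _ = _
      funext z
      rw [eq_iff_iff, Finset.forall_mem_insert, and_comm]
    · rw [Finset.card_insert_of_notMem hu, Nat.succ_mul]
      omega

/-- The main step for conjunctions of monotone circuits. -/
theorem core_and {κ : Type} [Fintype κ] (n k p r s : ℕ) (hr : 2 ≤ r)
    (hk : 2 * GG r ≤ k)
    (hn : 2 * (p * (GG r * (2 * r))) + (k - 2 * GG r) ≤ n)
    (hs : ((GG r * (2 * r)) ^ 2 + 1) * (s + 1) ≤ 2 ^ r)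
    (D : κ → MonoCircuit n) (hD : ∀ u, (D u).size ≤ s)
    (hcl : ∀ G : SimpleGraph (Fin n), (∀ u, (D u).Accepts G) ↔
      ∃ c : Finset (Fin n), G.IsClique (c : Set (Fin n)) ∧ k ≤ c.card) :
    2 ^ (p * p) ≤ Fintype.card κ := by
  by_contra hcon
  rw [not_le] at hcon
  have hg1 : 1 ≤ GG r := (two_le_GG r hr).trans' (by norm_num)
  obtain ⟨G, hGm, hGl, hGc⟩ := grid n k p (GG r) (2 * r) hg1 hk hn
  obtain ⟨Rj, hRj⟩ : ∃ Rj : SimpleGraph (Fin n) → κ → Prop, ∀ G u, Rj G u ↔ ¬ (D u).Accepts G :=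
    ⟨_, fun _ _ => Iff.rfl⟩
  obtain ⟨y, i, hyP, hyi, hst⟩ := stuck (ι := Fin p × Fin p) (κ := κ)
    (fun y => univ.filter fun u => Rj (G y) u)
    (fun z : Set (BE (GG r) (2 * r)) => ¬ TC z) ∅ (not_TC_empty hg1)
    (by
      intro y hy
      have h1 : ¬ ∀ u, (D u).Accepts (G y) := by
        intro h
        obtain ⟨i, hi⟩ := (hGc y).1 ((hcl (G y)).1 h)
        exact hy i hi
      push Not at h1
      obtain ⟨u, hu⟩ := h1
      exact ⟨u, Finset.mem_filter.2 ⟨Finset.mem_univ _, (hRj _ _).2 hu⟩⟩)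
    (by
      refine lt_of_le_of_lt (Finset.card_le_univ _) ?_
      rwa [Fintype.card_prod, Fintype.card_fin])
  obtain ⟨Γ, hΓ⟩ : ∃ Γ : Set (BE (GG r) (2 * r)) → SimpleGraph (Fin n),
      ∀ z, Γ z = G (Function.update y i z) := ⟨_, fun _ => rfl⟩
  have hleaf : ∀ a b, Leaf fun z => (Γ z).Adj a b := by
    intro a b
    rcases hGl a b with ⟨t, ht⟩ | ⟨i', e, he⟩
    · refine Or.inr ⟨t, fun z => ?_⟩
      show (Γ z).Adj a b ↔ _
      rw [hΓ, ht]
    · by_cases hii : i' = i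
      · refine Or.inl ⟨e, fun z => ?_⟩
        show (Γ z).Adj a b ↔ _
        rw [hΓ, he, hii, Function.update_self]
      · refine Or.inr ⟨e ∈ y i', fun z => ?_⟩
        show (Γ z).Adj a b ↔ _
        rw [hΓ, he, Function.update_of_ne hii]
  have hE : Fintype.card (BE (GG r) (2 * r)) = (GG r * (2 * r)) ^ 2 := by
    simp only [Fintype.card_prod, Fintype.card_fin]
    ring
  obtain ⟨T, -, hTc, hT⟩ := halving (fun z u => Rj (Γ z) u)
    (univ.filter fun u => Rj (G y) u) ((GG r * (2 * r)) ^ 2 + 1)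
    (univ.filter fun z : Set (BE (GG r) (2 * r)) => ¬ TC z)
    (lt_of_le_of_lt (Finset.card_le_card (Finset.filter_subset _ _))
      (card_set _ (by rw [hE]; exact Nat.lt_succ_self _)))
    (by
      intro z hz
      have h1 := hst z (Finset.mem_filter.1 hz).2
      refine lt_of_lt_of_le h1 ?_
      apply Nat.mul_le_mul_left
      apply Finset.card_le_card
      intro u hu
      have hu' := (Finset.mem_filter.1 hu).2
      refine Finset.mem_filter.2 ⟨Finset.mem_filter.2 ⟨Finset.mem_univ _,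
        (hRj _ _).2 fun hu'' => (hRj _ _).1 hu' ?_⟩, ?_⟩
      · refine (D u).mono (hGm _ _ ?_) hu''
        intro j
        by_cases hji : j = i
        · subst hji
          rw [hyi]
          exact Set.empty_subset _
        · rw [Function.update_of_ne hji]
      · rw [hΓ]
        exact hu')
  obtain ⟨gt, hgt, hav⟩ := (slp_all Γ hleaf D hD T).mono subset_rfl
    (Nat.mul_le_mul_right (s + 1) hTc)
  refine hard r hr _ hs gt hgt _ hav ?_ ?_
  · intro z hz
    refine ⟨_, rfl, fun u _ => ?_⟩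
    refine (hcl (Γ z)).2 ?_ u
    rw [hΓ]
    exact (hGc _).2 ⟨i, by rwa [Function.update_self]⟩
  · rintro z hz o rfl ho
    obtain ⟨u, hu, hzu⟩ := hT z (Finset.mem_filter.2 ⟨Finset.mem_univ _, hz⟩)
    exact (hRj _ _).1 hzu (ho u hu)

/-- The quantitative theorem for conjunctions of monotone circuits. -/
theorem main_and {κ : Type} [Fintype κ] (n k s : ℕ) (D : κ → MonoCircuit n)
    (hD : ∀ u, (D u).size ≤ s)
    (hcl : ∀ G : SimpleGraph (Fin n), (∀ u, (D u).Accepts G) ↔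
      ∃ c : Finset (Fin n), G.IsClique (c : Set (Fin n)) ∧ k ≤ c.card)
    (hk : 60000000 * (Nat.log 2 (n + s) + 1) ^ 3 ≤ k) :
    (n - k) ^ 2 ≤ 60000000000000000 * (Nat.log 2 (Fintype.card κ) + 1) *
      (Nat.log 2 (n + s) + 1) ^ 7 := by
  obtain ⟨l, hl⟩ : ∃ l, l = Nat.log 2 (n + s) + 1 := ⟨_, rfl⟩
  rw [← hl] at hk ⊢
  have hl1 : 1 ≤ l := by omega
  by_cases hnk : n ≤ k
  · have : n - k = 0 := by omega
    rw [this]
    simp
  rw [not_le] at hnk
  have hns : n + s < 2 ^ l := by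
    rw [hl]
    exact Nat.lt_pow_succ_log_self (by norm_num) _
  have hsize := size_bound l (s + 1) hl1 (by omega)
  obtain ⟨r, hr⟩ : ∃ r, r = 64 * l := ⟨_, rfl⟩
  rw [← hr] at hsize
  have hr2 : 2 ≤ r := by omega
  have hg := two_le_GG r hr2
  have hLL := LL_lin r (by omega)
  have hLL2 := LL_sq r (by omega)
  have hGk : 2 * GG r ≤ k := by
    refine le_trans ?_ hk
    rw [GG]
    calc 2 * (4 * r ^ 2 * LL r) ≤ 2 * (4 * r ^ 2 * (25 * r)) := by
          apply Nat.mul_le_mul_left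
          exact Nat.mul_le_mul_left _ hLL
      _ = 52428800 * l ^ 3 := by rw [hr]; ring
      _ ≤ 60000000 * l ^ 3 := Nat.mul_le_mul_right _ (by norm_num)
  obtain ⟨W, hW⟩ : ∃ W, W = 2 * (GG r * (2 * r)) := ⟨_, rfl⟩
  have hW1 : 0 < W := by
    rw [hW]
    positivity
  obtain ⟨p, hp⟩ : ∃ p, p = (n - k) / W := ⟨_, rfl⟩
  have hpn : p * W ≤ n - k := by
    rw [hp]
    exact Nat.div_mul_le_self _ _
  have hfit : 2 * (p * (GG r * (2 * r))) + (k - 2 * GG r) ≤ n := by
    have : 2 * (p * (GG r * (2 * r))) = p * W := by rw [hW]; ring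
    omega
  have hlt : n - k < W * (p + 1) := by
    rw [hp]
    exact Nat.lt_mul_div_succ _ hW1
  have hple : p * p ≤ Nat.log 2 (Fintype.card κ) :=
    Nat.le_log_of_pow_le (by norm_num) (core_and n k p r s hr2 hGk hfit hsize D hD hcl)
  have h7 : (p + 1) ^ 2 ≤ 2 * (p * p + 1) := by nlinarith [sq_nonneg ((p : ℤ) - 1)]
  have h5 : 2 * W ^ 2 ≤ 60000000000000000 * l ^ 7 := by
    calc 2 * W ^ 2 = 512 * r ^ 6 * (LL r) ^ 2 := by rw [hW, GG]; ring
      _ ≤ 512 * r ^ 6 * (25 * r) := Nat.mul_le_mul_left _ hLL2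
      _ = 56294995342131200 * l ^ 7 := by rw [hr]; ring
      _ ≤ 60000000000000000 * l ^ 7 := Nat.mul_le_mul_right _ (by norm_num)
  calc (n - k) ^ 2 ≤ (W * (p + 1)) ^ 2 := Nat.pow_le_pow_left hlt.le 2
    _ = W ^ 2 * (p + 1) ^ 2 := by ring
    _ ≤ W ^ 2 * (2 * (p * p + 1)) := Nat.mul_le_mul_left _ h7
    _ = (2 * W ^ 2) * (p * p + 1) := by ring
    _ ≤ (60000000000000000 * l ^ 7) * (Nat.log 2 (Fintype.card κ) + 1) :=
        Nat.mul_le_mul h5 (by omega)
    _ = 60000000000000000 * (Nat.log 2 (Fintype.card κ) + 1) * l ^ 7 := by ring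

end Pool.Agent.T9h35
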