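import Pool.Agent.T9h35.Advice
import Mathlib.FieldTheory.ChevalleyWarning
import Mathlib.FieldTheory.Finite.Basic

set_option autoImplicit false

namespace Pool.Agent.T9h35

open Finset Pool.Agent.T9h16
open scoped Classical

/-- Chevalley-Warning for set functions: few set functions of small degree vanishing at `∅` have a
common nonempty zero. -/
theorem cw {F Λ κ : Type} [Field F] [Fintype F] [Fintype Λ] [Fintype κ]
    (a : κ → Finset Λ → F) (d : κ → ℕ) (h0 : ∀ j, a j ∅ = 0)
    (hd : ∀ j S, d j < S.card → a j S = 0)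
    (hlt : ∑ j, d j * (Fintype.card F - 1) < Fintype.card Λ) :
    ∃ u : Finset Λ, u.Nonempty ∧ ∀ j, ∑ S ∈ u.powerset, a j S = 0 := by
  obtain ⟨q, hq⟩ : ∃ q, q = Fintype.card F - 1 := ⟨_, rfl⟩
  have hq1 : 1 ≤ q := by
    have := Fintype.one_lt_card (α := F)
    omega
  obtain ⟨f, hf⟩ : ∃ f : κ → MvPolynomial Λ F, ∀ j, f j =
      ∑ S : Finset Λ, MvPolynomial.C (a j S) * ∏ l ∈ S, MvPolynomial.X l ^ q :=
    ⟨_, fun _ => rfl⟩
  have hdeg : ∀ j, (f j).totalDegree ≤ d j * q := by
    intro j
    rw [hf j]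
    refine (MvPolynomial.totalDegree_finsetSum _ _).trans ?_
    refine Finset.sup_le fun S _ => ?_
    by_cases hS : d j < S.card
    · rw [hd j S hS]
      simp
    · refine (MvPolynomial.totalDegree_mul _ _).trans ?_
      rw [MvPolynomial.totalDegree_C, zero_add]
      refine (MvPolynomial.totalDegree_finsetProd _ _).trans ?_
      calc ∑ l ∈ S, (MvPolynomial.X l ^ q : MvPolynomial Λ F).totalDegree
          = ∑ l ∈ S, q := Finset.sum_congr rfl fun l _ => MvPolynomial.totalDegree_X_pow l q
        _ = S.card * q := by simp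
        _ ≤ d j * q := Nat.mul_le_mul_right _ (not_lt.1 hS)
  have heval : ∀ (y : Λ → F) j, MvPolynomial.eval y (f j) =
      ∑ S ∈ (univ.filter fun l => y l ≠ 0).powerset, a j S := by
    intro y j
    rw [hf j, map_sum]
    rw [← Finset.sum_subset (Finset.subset_univ (univ.filter fun l => y l ≠ 0).powerset)]
    · refine Finset.sum_congr rfl fun S hS => ?_
      rw [map_mul, MvPolynomial.eval_C, map_prod]
      rw [Finset.prod_eq_one, mul_one]
      intro l hl
      rw [Finset.mem_powerset] at hS
      have := hS hl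
      rw [Finset.mem_filter] at this
      rw [map_pow, MvPolynomial.eval_X, hq]
      exact FiniteField.pow_card_sub_one_eq_one _ this.2
    · intro S _ hS
      rw [Finset.mem_powerset, Finset.not_subset] at hS
      obtain ⟨l, hl, hl0⟩ := hS
      have hl0' : y l = 0 := by simpa using hl0
      rw [map_mul, MvPolynomial.eval_C, map_prod]
      rw [Finset.prod_eq_zero hl, mul_zero]
      rw [map_pow, MvPolynomial.eval_X, hl0', zero_pow (by omega)]
  have hchar := CharP.exists F
  obtain ⟨p, hp⟩ := hchar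
  have hpp : Nat.Prime p := by
    have := CharP.char_is_prime_or_zero F p
    rcases this with h | h
    · exact h
    · exact absurd h (CharP.char_ne_zero_of_finite F p)
  have hdvd := char_dvd_card_solutions_of_fintype_sum_lt (K := F) (σ := Λ) p (f := f) (by
    calc ∑ j, (f j).totalDegree ≤ ∑ j : κ, d j * q := Finset.sum_le_sum fun j _ => hdeg j
      _ < Fintype.card Λ := by rw [hq]; exact hlt)
  have hz : ∀ j, MvPolynomial.eval (0 : Λ → F) (f j) = 0 := by
    intro j
    rw [heval]
    simp [h0]
  have hcard : 1 < Fintype.card {x : Λ → F // ∀ j, MvPolynomial.eval x (f j) = 0} := by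
    have hpos : 0 < Fintype.card {x : Λ → F // ∀ j, MvPolynomial.eval x (f j) = 0} :=
      Fintype.card_pos_iff.2 ⟨⟨0, hz⟩⟩
    exact lt_of_lt_of_le hpp.one_lt (Nat.le_of_dvd hpos hdvd)
  obtain ⟨⟨y, hy⟩, hne⟩ := Fintype.exists_ne_of_one_lt_card hcard ⟨0, hz⟩
  refine ⟨univ.filter fun l => y l ≠ 0, ?_, fun j => ?_⟩
  · by_contra hcon
    rw [Finset.not_nonempty_iff_eq_empty, Finset.filter_eq_empty_iff] at hcon
    apply hne
    rw [Subtype.mk.injEq]
    funext l
    have := hcon (Finset.mem_univ l)
    simpa using this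
  · rw [← heval]
    exact hy j

/-- The number of sets with at most `d` elements. -/
theorem card_small {E : Type} [Fintype E] (d : ℕ) :
    (univ.filter fun T : Finset E => T.card ≤ d).card ≤ (Fintype.card E + 1) ^ d := by
  induction d with
  | zero =>
    rw [pow_zero, Finset.card_le_one]
    intro a ha b hb
    simp only [Finset.mem_filter, Finset.mem_univ, true_and, Nat.le_zero,
      Finset.card_eq_zero] at ha hb
    rw [ha, hb]
  | succ d ih =>
    have hsub : (univ.filter fun T : Finset E => T.card ≤ d + 1) ⊆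
        ((univ : Finset (Option E)) ×ˢ (univ.filter fun T : Finset E => T.card ≤ d)).image
          (fun x => x.1.elim x.2 (fun e => insert e x.2)) := by
      intro T hT
      rw [Finset.mem_filter] at hT
      rw [Finset.mem_image]
      by_cases hTd : T.card ≤ d
      · exact ⟨(none, T), by simp [hTd], rfl⟩
      · have hne : T.Nonempty := by
          rw [← Finset.card_pos]
          omega
        obtain ⟨e, he⟩ := hne
        refine ⟨(some e, T.erase e), ?_, ?_⟩
        · simp only [Finset.mem_product, Finset.mem_univ, Finset.mem_filter, true_and,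
            Finset.card_erase_of_mem he]
          omega
        · simp [Finset.insert_erase he]
    calc (univ.filter fun T : Finset E => T.card ≤ d + 1).card
        ≤ ((univ : Finset (Option E)) ×ˢ (univ.filter fun T : Finset E => T.card ≤ d)).card :=
          (Finset.card_le_card hsub).trans Finset.card_image_le
      _ = (Fintype.card E + 1) * (univ.filter fun T : Finset E => T.card ≤ d).card := by
          rw [Finset.card_product, Finset.card_univ, Fintype.card_option]
      _ ≤ (Fintype.card E + 1) * (Fintype.card E + 1) ^ d := Nat.mul_le_mul_left _ ih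
      _ = (Fintype.card E + 1) ^ (d + 1) := by ring

/-- Few set functions of small degree on `Λ × E` are constant on all sets `U × z`, `z ⊆ E`, for a
suitable nonempty `U ⊆ Λ`. -/
theorem cube {F Λ E : Type} [Field F] [Fintype F] [Fintype Λ] [Fintype E] {t : ℕ}
    {d : Fin t → ℕ}
    (c : Fin t → Finset (Λ × E) → F) (hd : ∀ j S, d j < S.card → c j S = 0)
    (hlt : ∑ j, (Fintype.card E + 1) ^ d j * (d j * (Fintype.card F - 1)) < Fintype.card Λ) :
    ∃ U : Finset Λ, U.Nonempty ∧ ∀ j (z : Set E),
      ∑ S ∈ univ.filter (fun S : Finset (Λ × E) => ∀ x ∈ S, x.1 ∈ U ∧ x.2 ∈ z), c j S = c j ∅ := by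
  obtain ⟨U, hU, hsum⟩ := cw (F := F) (Λ := Λ) (κ := Σ j : Fin t, {T : Finset E // T.card ≤ d j})
    (fun jT S' => if jT.2.1 = ∅ then 0 else
      ∑ S ∈ univ.filter (fun S : Finset (Λ × E) => S.image Prod.fst = S' ∧
        S.image Prod.snd = jT.2.1), c jT.1 S) (fun jT => d jT.1)
    (by
      rintro ⟨j, T, hT⟩
      dsimp only
      split_ifs with h
      · rfl
      · apply Finset.sum_eq_zero
        intro S hS
        rw [Finset.mem_filter] at hS
        obtain ⟨-, h1, h2⟩ := hS
        rw [Finset.image_eq_empty] at h1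
        rw [h1] at h2
        exact absurd h2.symm h)
    (by
      rintro ⟨j, T, hT⟩ S' hS'
      dsimp only
      split_ifs with h
      · rfl
      · apply Finset.sum_eq_zero
        intro S hS
        rw [Finset.mem_filter] at hS
        apply hd
        refine lt_of_lt_of_le hS' ?_
        rw [← hS.2.1]
        exact Finset.card_image_le)
    (by
      refine lt_of_le_of_lt ?_ hlt
      rw [Fintype.sum_sigma]
      refine Finset.sum_le_sum fun j _ => ?_
      dsimp only
      rw [Finset.sum_const, smul_eq_mul, Finset.card_univ]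
      apply Nat.mul_le_mul_right
      rw [Fintype.card_subtype]
      exact card_small (d j))
  refine ⟨U, hU, fun j z => ?_⟩
  rw [← Finset.sum_fiberwise_of_maps_to
    (t := (univ : Finset (Finset E))) (g := fun S : Finset (Λ × E) => S.image Prod.snd)
    (fun S _ => Finset.mem_univ _)]
  rw [Finset.sum_eq_single ∅]
  · rw [Finset.sum_eq_single ∅]
    · intro S hS hne
      rw [Finset.mem_filter, Finset.image_eq_empty] at hS
      exact absurd hS.2 hne
    · intro hS
      exfalso
      apply hS
      simp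
  · intro T _ hT
    by_cases hTz : (T : Set E) ⊆ z
    · have e : (univ.filter (fun S : Finset (Λ × E) => ∀ x ∈ S, x.1 ∈ U ∧ x.2 ∈ z)).filter
          (fun S => S.image Prod.snd = T) =
          (univ.filter (fun S : Finset (Λ × E) => S.image Prod.fst ∈ U.powerset)).filter
            (fun S => S.image Prod.snd = T) := by
        ext S
        simp only [Finset.mem_filter, Finset.mem_univ, true_and, Finset.mem_powerset]
        constructor
        · rintro ⟨h1, h2⟩
          refine ⟨?_, h2⟩
          intro a ha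
          rw [Finset.mem_image] at ha
          obtain ⟨x, hx, rfl⟩ := ha
          exact (h1 x hx).1
        · rintro ⟨h1, h2⟩
          refine ⟨fun x hx => ⟨h1 (Finset.mem_image_of_mem _ hx), ?_⟩, h2⟩
          apply hTz
          rw [Finset.mem_coe, ← h2]
          exact Finset.mem_image_of_mem _ hx
      rw [e]
      by_cases hTd : T.card ≤ d j
      · have h1 := hsum ⟨j, T, hTd⟩
        simp only [hT, if_false] at h1
        rw [← h1]
        rw [← Finset.sum_fiberwise_of_maps_to
          (t := U.powerset) (g := fun S : Finset (Λ × E) => S.image Prod.fst)]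
        · refine Finset.sum_congr rfl fun S' hS' => ?_
          refine Finset.sum_congr ?_ fun _ _ => rfl
          ext S
          simp only [Finset.mem_filter, Finset.mem_univ, true_and]
          constructor
          · rintro ⟨⟨_, h2⟩, h3⟩
            exact ⟨h3, h2⟩
          · rintro ⟨h2, h3⟩
            exact ⟨⟨h2 ▸ hS', h3⟩, h2⟩
        · intro S hS
          rw [Finset.mem_filter, Finset.mem_filter] at hS
          exact hS.1.2
      · apply Finset.sum_eq_zero
        intro S hS
        rw [Finset.mem_filter] at hS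
        apply hd
        refine lt_of_lt_of_le (not_le.1 hTd) ?_
        rw [← hS.2]
        exact Finset.card_image_le
    · apply Finset.sum_eq_zero
      intro S hS
      exfalso
      apply hTz
      rw [Finset.mem_filter, Finset.mem_filter] at hS
      intro e he
      rw [Finset.mem_coe, ← hS.2, Finset.mem_image] at he
      obtain ⟨x, hx, rfl⟩ := he
      exact (hS.1.2 x hx).2
  · intro h
    exact absurd (Finset.mem_univ _) h

/-- The presence of a set of edges in a graph of the family: impossible, or the presence of a set of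
variables. -/
theorem edges_leaf {Λ E : Type} {n : ℕ} (G : (Λ → Set E) → SimpleGraph (Fin n))
    (hG : ∀ a b : Fin n, (∃ t : Prop, ∀ y, (G y).Adj a b ↔ t) ∨
      (∃ i e, ∀ y, (G y).Adj a b ↔ e ∈ y i)) (s : Finset (Sym2 (Fin n))) :
    ∃ V : Finset (Λ × E), V.card ≤ s.card ∧
      ((∀ y, (∀ e ∈ s, e ∈ (G y).edgeSet) ↔ ∀ x ∈ V, x.2 ∈ y x.1) ∨
        (∀ y, ¬ ∀ e ∈ s, e ∈ (G y).edgeSet)) := by
  induction s using Finset.induction_on with
  | empty => exact ⟨∅, le_rfl, Or.inl fun y => by simp⟩
  | insert e s hes ih =>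
    obtain ⟨V, hV, h⟩ := ih
    rw [Finset.card_insert_of_notMem hes]
    rcases h with h | h
    · induction e using Sym2.ind with
      | _ a b =>
        rcases hG a b with ⟨t, ht⟩ | ⟨i, e', he⟩
        · by_cases htt : t
          · refine ⟨V, by omega, Or.inl fun y => ?_⟩
            rw [Finset.forall_mem_insert, SimpleGraph.mem_edgeSet, ht y, h y]
            simp [htt]
          · refine ⟨V, by omega, Or.inr fun y hy => ?_⟩
            rw [Finset.forall_mem_insert, SimpleGraph.mem_edgeSet, ht y] at hy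
            exact htt hy.1
        · refine ⟨insert (i, e') V, (Finset.card_insert_le _ _).trans (by omega),
            Or.inl fun y => ?_⟩
          rw [Finset.forall_mem_insert, Finset.forall_mem_insert, SimpleGraph.mem_edgeSet, he y,
            h y]
    · refine ⟨V, by omega, Or.inr fun y hy => ?_⟩
      rw [Finset.forall_mem_insert] at hy
      exact h y hy.2

/-- Along the family, a polynomial of degree at most `d` in the edge variables is a polynomial of
degree at most `d` in the variables of the family. -/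
theorem rep {F Λ E : Type} [Field F] [Fintype Λ] [Fintype E] {n d : ℕ}
    (G : (Λ → Set E) → SimpleGraph (Fin n))
    (hG : ∀ a b : Fin n, (∃ t : Prop, ∀ y, (G y).Adj a b ↔ t) ∨
      (∃ i e, ∀ y, (G y).Adj a b ↔ e ∈ y i))
    (P : MvPolynomial (Sym2 (Fin n)) F) (hP : P.totalDegree ≤ d) :
    ∃ c : Finset (Λ × E) → F, (∀ S, d < S.card → c S = 0) ∧
      ∀ y, MvPolynomial.eval (fun e => if e ∈ (G y).edgeSet then (1 : F) else 0) P =
        ∑ S ∈ univ.filter (fun S : Finset (Λ × E) => ∀ x ∈ S, x.2 ∈ y x.1), c S := by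
  choose V hV hVG using edges_leaf G hG
  refine ⟨fun S => ∑ m ∈ P.support.filter (fun m => V m.support = S ∧
    ∀ y, (∀ e ∈ m.support, e ∈ (G y).edgeSet) ↔ ∀ x ∈ V m.support, x.2 ∈ y x.1), P.coeff m,
    ?_, ?_⟩
  · intro S hS
    apply Finset.sum_eq_zero
    intro m hm
    exfalso
    rw [Finset.mem_filter] at hm
    obtain ⟨hm1, hm2, -⟩ := hm
    have h1 : m.support.card ≤ d := by
      refine le_trans ?_ hP
      refine le_trans ?_ (MvPolynomial.le_totalDegree hm1)
      rw [Finsupp.sum, Finset.card_eq_sum_ones]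
      refine Finset.sum_le_sum fun i hi => ?_
      rw [Finsupp.mem_support_iff] at hi
      omega
    have h2 := hV m.support
    rw [hm2] at h2
    omega
  · intro y
    have e1 : MvPolynomial.eval (fun e => if e ∈ (G y).edgeSet then (1 : F) else 0) P =
        ∑ m ∈ P.support.filter (fun m => ∀ e ∈ m.support, e ∈ (G y).edgeSet), P.coeff m := by
      rw [MvPolynomial.eval_eq, Finset.sum_filter]
      refine Finset.sum_congr rfl fun m _ => ?_
      split_ifs with h
      · rw [Finset.prod_eq_one, mul_one]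
        intro e he
        rw [if_pos (h e he), one_pow]
      · push Not at h
        obtain ⟨e, he, hne⟩ := h
        rw [Finset.prod_eq_zero he, mul_zero]
        rw [if_neg hne, zero_pow]
        exact Finsupp.mem_support_iff.1 he
    rw [e1]
    rw [← Finset.sum_fiberwise_of_maps_to
      (t := univ.filter (fun S : Finset (Λ × E) => ∀ x ∈ S, x.2 ∈ y x.1))
      (g := fun m : Sym2 (Fin n) →₀ ℕ => V m.support)]
    · refine Finset.sum_congr rfl fun S hS => ?_
      refine Finset.sum_congr ?_ fun _ _ => rfl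
      rw [Finset.mem_filter] at hS
      ext m
      simp only [Finset.mem_filter]
      constructor
      · rintro ⟨⟨h1, h2⟩, h3⟩
        refine ⟨h1, h3, ?_⟩
        rcases hVG m.support with h | h
        · exact h
        · exact absurd h2 (h y)
      · rintro ⟨h1, h2, h3⟩
        refine ⟨⟨h1, ?_⟩, h2⟩
        rw [h3, h2]
        exact hS.2
    · intro m hm
      rw [Finset.mem_filter] at hm ⊢
      refine ⟨Finset.mem_univ _, ?_⟩
      rcases hVG m.support with h | h
      · exact (h y).1 hm.2
      · exact absurd hm.2 (h y)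

/-- The main step: few polynomials of small degree are useless as advice. -/
theorem core_poly {F : Type} [Field F] [Fintype F] (n k p r s t : ℕ) (hr : 2 ≤ r)
    (hk : 2 * GG r ≤ k)
    (hn : 2 * (p * (GG r * (2 * r))) + (k - 2 * GG r) ≤ n) (hs : s ≤ 2 ^ r)
    (P : Fin t → MvPolynomial (Sym2 (Fin n)) F)
    (D : (Fin t → F) → MonoCircuit n) (hD : ∀ v, (D v).size ≤ s)
    (hcl : ∀ G : SimpleGraph (Fin n), (D fun i => MvPolynomial.eval
        (fun e => if e ∈ G.edgeSet then (1 : F) else 0) (P i)).Accepts G ↔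
      ∃ c : Finset (Fin n), G.IsClique (c : Set (Fin n)) ∧ k ≤ c.card) :
    p * p ≤ ∑ i, ((GG r * (2 * r)) ^ 2 + 1) ^ (P i).totalDegree *
      ((P i).totalDegree * (Fintype.card F - 1)) := by
  by_contra hcon
  rw [not_le] at hcon
  have hg1 : 1 ≤ GG r := (two_le_GG r hr).trans' (by norm_num)
  obtain ⟨G, hGm, hGl, hGc⟩ := grid n k p (GG r) (2 * r) hg1 hk hn
  have hrep := fun i => rep G hGl (P i) le_rfl
  choose c hcd hc using hrep
  obtain ⟨U, hU, hconst⟩ := cube c hcd (by
    simp only [Fintype.card_prod, Fintype.card_fin]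
    rw [← pow_two]
    exact hcon)
  obtain ⟨i₀, hi₀⟩ := hU
  obtain ⟨Γ, hΓ⟩ : ∃ Γ : Set (BE (GG r) (2 * r)) → SimpleGraph (Fin n),
      ∀ z, Γ z = G (fun i => if i ∈ U then z else ∅) := ⟨_, fun _ => rfl⟩
  have hv : ∀ z, (fun i => MvPolynomial.eval
      (fun e => if e ∈ (Γ z).edgeSet then (1 : F) else 0) (P i)) = fun i => c i ∅ := by
    intro z
    funext i
    rw [hΓ, hc, ← hconst i z]
    refine Finset.sum_congr ?_ fun _ _ => rfl
    ext S
    simp only [Finset.mem_filter, Finset.mem_univ, true_and]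
    refine forall₂_congr fun x _ => ?_
    by_cases hx : x.1 ∈ U
    · simp [hx]
    · simp [hx]
  have hleaf : ∀ a b, Leaf fun z => (Γ z).Adj a b := by
    intro a b
    rcases hGl a b with ⟨t, ht⟩ | ⟨i, e, he⟩
    · refine Or.inr ⟨t, fun z => ?_⟩
      show (Γ z).Adj a b ↔ _
      rw [hΓ, ht]
    · by_cases hi : i ∈ U
      · refine Or.inl ⟨e, fun z => ?_⟩
        show (Γ z).Adj a b ↔ _
        rw [hΓ, he, if_pos hi]
      · refine Or.inr ⟨False, fun z => ?_⟩
        show (Γ z).Adj a b ↔ _
        rw [hΓ, he, if_neg hi]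
        exact Iff.rfl
  obtain ⟨gt, hgt, hav⟩ := ((D fun i => c i ∅).slp Γ hleaf).mono subset_rfl (hD _)
  have hTC : ∀ z, (D fun i => c i ∅).Accepts (Γ z) ↔ TC z := by
    intro z
    have h1 := hcl (Γ z)
    rw [hv z] at h1
    rw [h1, hΓ, hGc]
    constructor
    · rintro ⟨i, hi⟩
      by_cases hiU : i ∈ U
      · rwa [if_pos hiU] at hi
      · rw [if_neg hiU] at hi
        exact absurd hi (not_TC_empty hg1)
    · intro hz
      exact ⟨i₀, by rwa [if_pos hi₀]⟩
  refine hard r hr s hs gt hgt _ hav ?_ ?_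
  · intro z hz
    exact ⟨_, rfl, (hTC z).2 hz⟩
  · rintro z hz o rfl ho
    exact hz ((hTC z).1 ho)

/-- The quantitative theorem. -/
theorem main_poly {F : Type} [Field F] [Fintype F] (n k t s : ℕ)
    (P : Fin t → MvPolynomial (Sym2 (Fin n)) F)
    (D : (Fin t → F) → MonoCircuit n) (hD : ∀ v, (D v).size ≤ s)
    (hcl : ∀ G : SimpleGraph (Fin n), (D fun i => MvPolynomial.eval
        (fun e => if e ∈ G.edgeSet then (1 : F) else 0) (P i)).Accepts G ↔
      ∃ c : Finset (Fin n), G.IsClique (c : Set (Fin n)) ∧ k ≤ c.card)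
    (hk : 2000000 * (Nat.log 2 (n + s) + 1) ^ 3 ≤ k) :
    (n - k) ^ 2 ≤ 2000000 * (Nat.log 2 (n + s) + 1) ^ 7 + Fintype.card F *
      ∑ i, (P i).totalDegree *
        (2000000 * (Nat.log 2 (n + s) + 1) ^ 7) ^ ((P i).totalDegree + 1) := by
  obtain ⟨l, hl⟩ : ∃ l, l = Nat.log 2 (n + s) + 1 := ⟨_, rfl⟩
  rw [← hl] at hk ⊢
  have hl1 : 1 ≤ l := by omega
  by_cases hnk : n ≤ k
  · have : n - k = 0 := by omega
    rw [this]
    simp
  rw [not_le] at hnk
  obtain ⟨r, hr⟩ : ∃ r, r = 2 * l := ⟨_, rfl⟩
  have hr2 : 2 ≤ r := by omega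
  have hns : n + s < 2 ^ l := by
    rw [hl]
    exact Nat.lt_pow_succ_log_self (by norm_num) _
  have hsize : s ≤ 2 ^ r := by
    calc s ≤ 2 ^ l := by omega
      _ ≤ 2 ^ r := Nat.pow_le_pow_right (by norm_num) (by omega)
  have hLL := LL_lin r (by omega)
  have hLL2 := LL_sq r (by omega)
  have hGk : 2 * GG r ≤ k := by
    refine le_trans ?_ hk
    rw [GG]
    calc 2 * (4 * r ^ 2 * LL r) ≤ 2 * (4 * r ^ 2 * (25 * r)) := by
          apply Nat.mul_le_mul_left
          exact Nat.mul_le_mul_left _ hLL
      _ = 1600 * l ^ 3 := by rw [hr]; ring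
      _ ≤ 2000000 * l ^ 3 := Nat.mul_le_mul_right _ (by norm_num)
  obtain ⟨W, hW⟩ : ∃ W, W = 2 * (GG r * (2 * r)) := ⟨_, rfl⟩
  have hW1 : 0 < W := by
    have := two_le_GG r hr2
    rw [hW]
    positivity
  obtain ⟨p, hp⟩ : ∃ p, p = (n - k) / W := ⟨_, rfl⟩
  have hpn : p * W ≤ n - k := by
    rw [hp]
    exact Nat.div_mul_le_self _ _
  have hfit : 2 * (p * (GG r * (2 * r))) + (k - 2 * GG r) ≤ n := by
    have : 2 * (p * (GG r * (2 * r))) = p * W := by rw [hW]; ring
    omega
  have hpR := core_poly n k p r s t hr2 hGk hfit hsize P D hD hcl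
  have hlt : n - k < W * (p + 1) := by
    rw [hp]
    exact Nat.lt_mul_div_succ _ hW1
  obtain ⟨M, hM⟩ : ∃ M, M = 2000000 * l ^ 7 := ⟨_, rfl⟩
  rw [← hM]
  have h5 : 2 * W ^ 2 ≤ M := by
    calc 2 * W ^ 2 = 512 * r ^ 6 * (LL r) ^ 2 := by rw [hW, GG]; ring
      _ ≤ 512 * r ^ 6 * (25 * r) := Nat.mul_le_mul_left _ hLL2
      _ = 1638400 * l ^ 7 := by rw [hr]; ring
      _ ≤ 2000000 * l ^ 7 := Nat.mul_le_mul_right _ (by norm_num)
      _ = M := hM.symm
  have h6 : (GG r * (2 * r)) ^ 2 + 1 ≤ M := by
    have e : W ^ 2 = 4 * (GG r * (2 * r)) ^ 2 := by rw [hW]; ring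
    have e1 : 1 ≤ (GG r * (2 * r)) ^ 2 := by
      apply Nat.one_le_pow
      have := two_le_GG r hr2
      positivity
    omega
  have h7 : (p + 1) ^ 2 ≤ 2 * (p * p + 1) := by nlinarith [sq_nonneg ((p : ℤ) - 1)]
  obtain ⟨q, hq⟩ : ∃ q, q = Fintype.card F := ⟨_, rfl⟩
  rw [← hq] at hpR ⊢
  calc (n - k) ^ 2 ≤ (W * (p + 1)) ^ 2 := Nat.pow_le_pow_left hlt.le 2
    _ = W ^ 2 * (p + 1) ^ 2 := by ring
    _ ≤ W ^ 2 * (2 * (p * p + 1)) := Nat.mul_le_mul_left _ h7
    _ = (2 * W ^ 2) * (p * p + 1) := by ring
    _ ≤ M * (p * p + 1) := Nat.mul_le_mul_right _ h5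
    _ = M + M * (p * p) := by ring
    _ ≤ M + M * ∑ i, ((GG r * (2 * r)) ^ 2 + 1) ^ (P i).totalDegree *
          ((P i).totalDegree * (q - 1)) :=
        Nat.add_le_add_left (Nat.mul_le_mul_left _ hpR) _
    _ ≤ M + q * ∑ i, (P i).totalDegree * M ^ ((P i).totalDegree + 1) := by
        apply Nat.add_le_add_left
        rw [Finset.mul_sum, Finset.mul_sum]
        refine Finset.sum_le_sum fun i _ => ?_
        calc M * (((GG r * (2 * r)) ^ 2 + 1) ^ (P i).totalDegree *
              ((P i).totalDegree * (q - 1)))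
            ≤ M * (M ^ (P i).totalDegree * ((P i).totalDegree * q)) := by
              apply Nat.mul_le_mul_left
              apply Nat.mul_le_mul
              · exact Nat.pow_le_pow_left h6 _
              · exact Nat.mul_le_mul_left _ (Nat.sub_le _ _)
          _ = q * ((P i).totalDegree * M ^ ((P i).totalDegree + 1)) := by ring

end Pool.Agent.T9h35
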